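import Mathlib

set_option autoImplicit false

namespace Pool.Agent.HD996

open Finset Function

/-- off-diagonal form of the `n`-dimensional Hadamard property over an index type `V`. -/
def HD (n : ℕ) (V : Type) [Fintype V] [DecidableEq V] : Prop :=
  ∃ A : (Fin n → V) → ℤ, (∀ i, A i = 1 ∨ A i = -1) ∧
    ∀ l : Fin n, ∀ x y : V, x ≠ y →
      ∑ i : Fin n → V, A (update i l x) * A (update i l y) = 0

theorem sq_of_pm {a : ℤ} (h : a = 1 ∨ a = -1) : a * a = 1 := by
  rcases h with h | h <;> simp [h]

theorem HD.congr {n : ℕ} {V W : Type} [Fintype V] [DecidableEq V] [Fintype W] [DecidableEq W]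
    (e : V ≃ W) (h : HD n V) : HD n W := by
  obtain ⟨A, hA, hO⟩ := h
  refine ⟨fun i => A (fun j => e.symm (i j)), fun i => hA _, ?_⟩
  intro l x y hxy
  have h1 := hO l (e.symm x) (e.symm y) (fun h => hxy (e.symm.injective h))
  rw [← h1]
  refine Fintype.sum_equiv (Equiv.arrowCongr (Equiv.refl _) e.symm) _ _ ?_
  intro i
  have key : ∀ z : W, (fun j => e.symm (update i l z j))
      = update ((Equiv.arrowCongr (Equiv.refl (Fin n)) e.symm) i) l (e.symm z) := by
    intro z
    funext j
    by_cases hj : j = l
    · subst hj; simp
    · simp [update_of_ne hj]
  beta_reduce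
  rw [key x, key y]

theorem HD.prod {n : ℕ} {V W : Type} [Fintype V] [DecidableEq V] [Fintype W] [DecidableEq W]
    (h : HD n V) (h' : HD n W) : HD n (V × W) := by
  obtain ⟨A, hA, hO⟩ := h
  obtain ⟨B, hB, hP⟩ := h'
  refine ⟨fun i => A (fun j => (i j).1) * B (fun j => (i j).2), ?_, ?_⟩
  · intro i
    rcases hA (fun j => (i j).1) with h | h <;> rcases hB (fun j => (i j).2) with h' | h' <;>
      simp [h, h']
  · intro l x y hxy
    have key : ∑ i : Fin n → V × W,
        (fun i => A (fun j => (i j).1) * B (fun j => (i j).2)) (update i l x) *
        (fun i => A (fun j => (i j).1) * B (fun j => (i j).2)) (update i l y)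
        = (∑ i : Fin n → V, A (update i l x.1) * A (update i l y.1)) *
          (∑ i : Fin n → W, B (update i l x.2) * B (update i l y.2)) := by
      rw [Finset.sum_mul_sum, ← Fintype.sum_prod_type']
      refine Fintype.sum_equiv (Equiv.arrowProdEquivProdArrow _ _ _) _ _ ?_
      intro i
      have k1 : ∀ z : V × W, (fun j => (update i l z j).1)
          = update ((Equiv.arrowProdEquivProdArrow (Fin n) (fun _ => V) (fun _ => W)) i).1 l z.1 := by
        intro z
        funext j
        by_cases hj : j = l
        · subst hj; simp
        · simp [update_of_ne hj]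
      have k2 : ∀ z : V × W, (fun j => (update i l z j).2)
          = update ((Equiv.arrowProdEquivProdArrow (Fin n) (fun _ => V) (fun _ => W)) i).2 l z.2 := by
        intro z
        funext j
        by_cases hj : j = l
        · subst hj; simp
        · simp [update_of_ne hj]
      simp only []
      rw [k1 x, k1 y, k2 x, k2 y]
      ring
    rw [key]
    by_cases h1 : x.1 = y.1
    · have h2 : x.2 ≠ y.2 := fun h => hxy (Prod.ext h1 h)
      rw [hP l _ _ h2, mul_zero]
    · rw [hO l _ _ h1, zero_mul]

/-- from dimension `n` to dimension `n + 1`. -/
theorem HD.succ {n : ℕ} {V : Type} [Fintype V] [DecidableEq V] [AddCommGroup V] (e : Fin n)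
    (h : HD n V) : HD (n + 1) V := by
  obtain ⟨A, hA, hO⟩ := h
  refine ⟨fun i => A (fun j => i j.castSucc + (if j = e then i (Fin.last n) else 0)),
    fun i => hA _, ?_⟩
  intro l x y hxy
  -- turn the sum over `Fin (n+1) → V` into a double sum
  have key : ∀ F : (Fin n → V) → V → ℤ,
      ∑ i : Fin (n + 1) → V, F (fun j => i j.castSucc) (i (Fin.last n))
        = ∑ z : V, ∑ g : Fin n → V, F g z := by
    intro F
    rw [← Fintype.sum_prod_type']
    refine Fintype.sum_equiv (Fin.snocEquiv (fun _ => V)).symm _ _ ?_
    intro i
    rfl
  refine Fin.lastCases ?_ (fun l => ?_) l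
  · -- direction `last`
    have h1 : ∑ i : Fin (n + 1) → V,
        A (fun j => (update i (Fin.last n) x) j.castSucc +
            (if j = e then (update i (Fin.last n) x) (Fin.last n) else 0)) *
        A (fun j => (update i (Fin.last n) y) j.castSucc +
            (if j = e then (update i (Fin.last n) y) (Fin.last n) else 0))
        = ∑ z : V, ∑ g : Fin n → V, A (fun j => g j + if j = e then x else 0) *
            A (fun j => g j + if j = e then y else 0) := by
      rw [← key (fun g _ => A (fun j => g j + if j = e then x else 0) *
            A (fun j => g j + if j = e then y else 0))]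
      refine Finset.sum_congr rfl fun i _ => ?_
      have : ∀ (z : V) (j : Fin n), (update i (Fin.last n) z) j.castSucc = i j.castSucc := by
        intro z j
        exact update_of_ne (Fin.castSucc_lt_last j).ne _ _
      simp only [this, update_self]
    simp only [] at h1 ⊢
    rw [h1]
    have h2 : (Fintype.card V : ℤ) * ∑ g : Fin n → V, A (fun j => g j + if j = e then x else 0) *
            A (fun j => g j + if j = e then y else 0) = 0 := by
      have h3 : ∀ w : V, ∑ g : Fin n → V, A (fun j => g j + if j = e then x else 0) *
            A (fun j => g j + if j = e then y else 0)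
          = ∑ g : Fin n → V, A (fun j => g j + if j = e then x + w else 0) *
            A (fun j => g j + if j = e then y + w else 0) := by
        intro w
        symm
        refine Fintype.sum_equiv (Equiv.addRight (fun j => if j = e then w else 0)) _ _ ?_
        intro g
        have : ∀ c : V, (fun j => g j + if j = e then c + w else 0)
            = fun j => (Equiv.addRight (fun j => if j = e then w else 0)) g j
                + if j = e then c else 0 := by
          intro c
          funext j
          simp only [Equiv.coe_addRight, Pi.add_apply]
          split_ifs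
          · abel
          · abel
        rw [this x, this y]
      have h4 : (Fintype.card V : ℤ) * ∑ g : Fin n → V, A (fun j => g j + if j = e then x else 0) *
            A (fun j => g j + if j = e then y else 0)
          = ∑ w : V, ∑ g : Fin n → V, A (fun j => g j + if j = e then x + w else 0) *
            A (fun j => g j + if j = e then y + w else 0) := by
        rw [← Finset.sum_congr rfl (fun w _ => h3 w)]
        simp
      rw [h4, Finset.sum_comm]
      have h5 : ∀ g : Fin n → V, ∑ w : V, A (fun j => g j + if j = e then x + w else 0) *
            A (fun j => g j + if j = e then y + w else 0)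
          = ∑ w : V, A (update g e (x + w)) * A (update g e (y + w)) := by
        intro g
        refine Fintype.sum_equiv (Equiv.addRight (g e)) _ _ ?_
        intro w
        have : ∀ c : V, (fun j => g j + if j = e then c + w else 0)
            = update g e (c + (Equiv.addRight (g e)) w) := by
          intro c
          funext j
          by_cases hj : j = e
          · subst hj; simp only [update_self, if_true, Equiv.coe_addRight]; abel
          · simp [hj]
        rw [this x, this y]
      rw [Finset.sum_congr rfl (fun g _ => h5 g), Finset.sum_comm]
      refine Finset.sum_eq_zero fun w _ => ?_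
      exact hO e _ _ (fun h => hxy (add_right_cancel h))
    have hcard : (Fintype.card V : ℤ) ≠ 0 := by
      have : 0 < Fintype.card V := Fintype.card_pos_iff.mpr ⟨x⟩
      exact_mod_cast this.ne'
    have h6 := (mul_eq_zero.mp h2).resolve_left hcard
    simp [h6]
  · have h1 : ∀ z : V, ∀ i : Fin (n + 1) → V,
        (fun j => (update i l.castSucc z) j.castSucc +
            (if j = e then (update i l.castSucc z) (Fin.last n) else 0))
        = update (fun j : Fin n => i j.castSucc + if j = e then i (Fin.last n) else 0) l
            (z + if l = e then i (Fin.last n) else 0) := by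
      intro z i
      funext j
      have hl : (update i l.castSucc z) (Fin.last n) = i (Fin.last n) :=
        update_of_ne (Fin.castSucc_lt_last l).ne' _ _
      by_cases hj : j = l
      · subst hj; simp [hl]
      · have hj' : j.castSucc ≠ l.castSucc := fun h => hj (Fin.castSucc_injective _ h)
        simp [hl, update_of_ne hj, update_of_ne hj']
    simp only [h1]
    rw [key (fun g z => A (update (fun j => g j + if j = e then z else 0) l
          (x + if l = e then z else 0)) *
        A (update (fun j => g j + if j = e then z else 0) l (y + if l = e then z else 0)))]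
    refine Finset.sum_eq_zero fun z _ => ?_
    have h2 : ∑ g : Fin n → V, A (update (fun j => g j + if j = e then z else 0) l
          (x + if l = e then z else 0)) *
        A (update (fun j => g j + if j = e then z else 0) l (y + if l = e then z else 0))
        = ∑ g : Fin n → V, A (update g l (x + if l = e then z else 0)) *
          A (update g l (y + if l = e then z else 0)) := by
      refine Fintype.sum_equiv (Equiv.addRight (fun j => if j = e then z else 0)) _ _ ?_
      intro g
      rfl
    rw [h2]
    exact hO l _ _ (fun h => hxy (add_right_cancel h))

theorem HD.of_four {V : Type} [Fintype V] [DecidableEq V] [AddCommGroup V]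
    (h : HD 4 V) (n : ℕ) (hn : 4 ≤ n) : HD n V := by
  induction n, hn using Nat.le_induction with
  | base => exact h
  | succ n hn ih => exact HD.succ ⟨0, by omega⟩ ih

/-- back to the statement with `Fin v`. -/
theorem HD.frozen {n v : ℕ} {V : Type} [Fintype V] [DecidableEq V] (hv : Fintype.card V = v)
    (h : HD n V) : ∃ A : (Fin n → Fin v) → ℤ, (∀ i, A i = 1 ∨ A i = -1) ∧
      ∀ l : Fin n, ∀ x y : Fin v,
        (∑ i : Fin n → Fin v, A (update i l x) * A (update i l y)) =
          if x = y then ((v : ℕ) : ℤ) ^ n else 0 := by
  have h' : HD n (Fin v) := HD.congr (Fintype.equivFinOfCardEq hv) h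
  obtain ⟨A, hA, hO⟩ := h'
  refine ⟨A, hA, fun l x y => ?_⟩
  split_ifs with hxy
  · subst hxy
    rw [Finset.sum_congr rfl (fun i _ => sq_of_pm (hA (update i l x)))]
    simp
  · exact hO l x y hxy

end Pool.Agent.HD996
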