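import Pool.Agent.HD996.Four

set_option autoImplicit false
set_option linter.unusedSimpArgs false
set_option linter.unusedSectionVars false

namespace Pool.Agent.HD996

open Finset Function

def chi (u v : U) : ℤ := (if (u.1 && v.1) then -1 else 1) * (if (u.2 && v.2) then -1 else 1)

theorem chi_pm (u v : U) : chi u v = 1 ∨ chi u v = -1 := by
  revert u v; decide

theorem chi_sq (u v : U) : chi u v * chi u v = 1 := sq_of_pm (chi_pm u v)

theorem chi_orth (v w : U) (h : v ≠ w) : ∑ u : U, chi u v * chi u w = 0 := by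
  revert v w; decide

/-- the data of the construction, in the coordinates `(s, d) = (i + j, i - j)`. -/
structure Design (G K0 : Type) [Fintype G] [DecidableEq G] [AddCommGroup G] [Fintype K0]
    [DecidableEq K0] (H0 : K0 → K0 → ℤ) (zd : G → Prop) [DecidablePred zd]
    (f : G → U → G → ℤ) (κ : G × G → K0) (lam : G × G → U) (σ : G × G → ℤ) (α : ℤ) : Prop where
  f_pm : ∀ d u s, f d u s = 1 ∨ f d u s = -1
  s_pm : ∀ P, σ P = 1 ∨ σ P = -1
  h_pm : ∀ a b, H0 a b = 1 ∨ H0 a b = -1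
  row : ∀ a a', a ≠ a' → ∑ b, H0 a b * H0 a' b = 0
  col : ∀ b b', b ≠ b' → ∑ a, H0 a b * H0 a b' = 0
  f0 : ∀ d, zd d → ∀ u, f d u 0 = 1
  paf : ∀ δ, δ ≠ 0 → ∑ s, ∑ d, (if zd d then ∑ u, f d u s * f d u (s + δ) else 0) = 0
  slot : ∀ P Q : G × G, ¬ (P.1 = 0 ∧ zd P.2) → ¬ (Q.1 = 0 ∧ zd Q.2) → κ P = κ Q →
    lam P = lam Q → P.1 = Q.1 ∨ P.2 = Q.2
  unif : ∀ a, ∑ P : G × G, (if ¬ (P.1 = 0 ∧ zd P.2) ∧ κ P = a then (1 : ℤ) else 0) = α
  bal : ∀ d0, zd d0 → ∀ u a,
    ∑ P : G × G, (if ¬ (P.1 = 0 ∧ zd P.2) ∧ κ P = a then σ P * chi u (lam P) * f d0 u P.1 else 0)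
      = 0

section
variable {G K0 : Type} [Fintype G] [DecidableEq G] [AddCommGroup G] [Fintype K0]
    [DecidableEq K0]

/-- the block matrix of the construction, in `(s, d)` coordinates -/
def Bm (H0 : K0 → K0 → ℤ) (zd : G → Prop) [DecidablePred zd]
    (f : G → U → G → ℤ) (κ : G × G → K0) (lam : G × G → U) (σ : G × G → ℤ)
    (u : U) (P Q : G × G) : ℤ :=
  if P.1 = 0 ∧ zd P.2 then f P.2 u Q.1
  else if Q.1 = 0 ∧ zd Q.2 then f Q.2 u P.1
  else σ P * σ Q * H0 (κ P) (κ Q) * (chi u (lam P) * chi u (lam Q))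

variable {H0 : K0 → K0 → ℤ} {zd : G → Prop} [DecidablePred zd]
    {f : G → U → G → ℤ} {κ : G × G → K0} {lam : G × G → U} {σ : G × G → ℤ} {α : ℤ}

theorem Design.transpose (D : Design G K0 H0 zd f κ lam σ α) :
    Design G K0 (fun a b => H0 b a) zd f κ lam σ α :=
  { D with
    h_pm := fun a b => D.h_pm b a
    row := fun a a' h => D.col a a' h
    col := fun a a' h => D.row a a' h }

theorem Design.Bm_pm (D : Design G K0 H0 zd f κ lam σ α) (u : U) (P Q : G × G) :
    Bm H0 zd f κ lam σ u P Q = 1 ∨ Bm H0 zd f κ lam σ u P Q = -1 := by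
  unfold Bm
  split_ifs
  · exact D.f_pm _ _ _
  · exact D.f_pm _ _ _
  · rcases D.s_pm P with h1 | h1 <;> rcases D.s_pm Q with h2 | h2 <;>
      rcases D.h_pm (κ P) (κ Q) with h3 | h3 <;>
      rcases chi_pm u (lam P) with h4 | h4 <;> rcases chi_pm u (lam Q) with h5 | h5 <;>
      rw [h1, h2, h3, h4, h5] <;> norm_num

theorem Design.Bm_swap (D : Design G K0 H0 zd f κ lam σ α) (u : U) (P Q : G × G) :
    Bm H0 zd f κ lam σ u P Q = Bm (fun a b => H0 b a) zd f κ lam σ u Q P := by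
  unfold Bm
  by_cases h1 : P.1 = 0 ∧ zd P.2
  · by_cases h2 : Q.1 = 0 ∧ zd Q.2
    · rw [if_pos h1, if_pos h2, h1.1, h2.1, D.f0 _ h1.2, D.f0 _ h2.2]
    · rw [if_pos h1, if_neg h2, if_pos h1]
  · by_cases h2 : Q.1 = 0 ∧ zd Q.2
    · rw [if_neg h1, if_pos h2, if_pos h2]
    · rw [if_neg h1, if_neg h2, if_neg h2, if_neg h1]
      ring

theorem Design.sum_kappa (D : Design G K0 H0 zd f κ lam σ α) (Ψ : K0 → ℤ) :
    ∑ Q : G × G, (if ¬ (Q.1 = 0 ∧ zd Q.2) then Ψ (κ Q) else 0) = α * ∑ b, Ψ b := by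
  have h1 : ∀ Q : G × G, (if ¬ (Q.1 = 0 ∧ zd Q.2) then Ψ (κ Q) else 0)
      = ∑ b, Ψ b * (if ¬ (Q.1 = 0 ∧ zd Q.2) ∧ κ Q = b then (1 : ℤ) else 0) := by
    intro Q
    by_cases h : (Q.1 = 0 ∧ zd Q.2)
    · simp [h]
    · simp [h]
  rw [Finset.sum_congr rfl (fun Q _ => h1 Q), Finset.sum_comm, Finset.mul_sum]
  refine Finset.sum_congr rfl fun b _ => ?_
  rw [← Finset.mul_sum, D.unif b]
  ring

/-- Gram value of two rows in different slots. -/
theorem Design.gram (D : Design G K0 H0 zd f κ lam σ α) (P Q : G × G)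
    (hPQ : ¬ ((P.1 = 0 ∧ zd P.2) ∧ (Q.1 = 0 ∧ zd Q.2)))
    (hs : P.1 ≠ Q.1) (hd : P.2 ≠ Q.2) :
    ∑ u, ∑ R : G × G, Bm H0 zd f κ lam σ u P R * Bm H0 zd f κ lam σ u Q R
      = ∑ d, (if zd d then ∑ u, f d u P.1 * f d u Q.1 else 0) := by
  have hZ : ∀ (u : U) (P R : G × G), (R.1 = 0 ∧ zd R.2) → Bm H0 zd f κ lam σ u P R = f R.2 u P.1 := by
    intro u P R hR
    unfold Bm
    by_cases h1 : P.1 = 0 ∧ zd P.2
    · rw [if_pos h1, hR.1, h1.1, D.f0 _ h1.2, D.f0 _ hR.2]
    · rw [if_neg h1, if_pos hR]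
  have hsplit : ∀ u : U, ∑ R : G × G, Bm H0 zd f κ lam σ u P R * Bm H0 zd f κ lam σ u Q R
      = ∑ R : G × G, (if (R.1 = 0 ∧ zd R.2) then f R.2 u P.1 * f R.2 u Q.1 else 0)
        + ∑ R : G × G, (if ¬ (R.1 = 0 ∧ zd R.2) then
            Bm H0 zd f κ lam σ u P R * Bm H0 zd f κ lam σ u Q R else 0) := by
    intro u
    rw [← Finset.sum_add_distrib]
    refine Finset.sum_congr rfl fun R _ => ?_
    by_cases h : (R.1 = 0 ∧ zd R.2)
    · rw [if_pos h, if_neg (not_not.mpr h), hZ u P R h, hZ u Q R h, add_zero]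
    · rw [if_neg h, if_pos h, zero_add]
  rw [Finset.sum_congr rfl (fun u _ => hsplit u), Finset.sum_add_distrib]
  have hfirst : ∑ u : U, ∑ R : G × G, (if (R.1 = 0 ∧ zd R.2) then f R.2 u P.1 * f R.2 u Q.1 else 0)
      = ∑ d, (if zd d then ∑ u, f d u P.1 * f d u Q.1 else 0) := by
    have : ∀ u : U, ∑ R : G × G, (if (R.1 = 0 ∧ zd R.2) then f R.2 u P.1 * f R.2 u Q.1 else 0)
        = ∑ d, (if zd d then f d u P.1 * f d u Q.1 else 0) := by
      intro u
      rw [Fintype.sum_prod_type]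
      rw [Finset.sum_eq_single (0 : G)]
      · simp
      · intro b _ hb
        simp [hb]
      · simp
    rw [Finset.sum_congr rfl (fun u _ => this u), Finset.sum_comm]
    refine Finset.sum_congr rfl fun d _ => ?_
    by_cases h : zd d <;> simp [h]
  rw [hfirst]
  have hsecond : ∑ u : U, ∑ R : G × G, (if ¬ (R.1 = 0 ∧ zd R.2) then
      Bm H0 zd f κ lam σ u P R * Bm H0 zd f κ lam σ u Q R else 0) = 0 := by
    -- one row in Z, the other not
    have mixed : ∀ P Q : G × G, (P.1 = 0 ∧ zd P.2) → ¬ (Q.1 = 0 ∧ zd Q.2) → ∀ u : U,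
        ∑ R : G × G, (if ¬ (R.1 = 0 ∧ zd R.2) then
          Bm H0 zd f κ lam σ u P R * Bm H0 zd f κ lam σ u Q R else 0) = 0 := by
      intro P Q hP hQ u
      have h1 : ∀ R : G × G, (if ¬ (R.1 = 0 ∧ zd R.2) then
          Bm H0 zd f κ lam σ u P R * Bm H0 zd f κ lam σ u Q R else 0)
          = ∑ b, (σ Q * chi u (lam Q) * H0 (κ Q) b) *
            (if ¬ (R.1 = 0 ∧ zd R.2) ∧ κ R = b then σ R * chi u (lam R) * f P.2 u R.1 else 0) := by
        intro R
        by_cases h : (R.1 = 0 ∧ zd R.2)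
        · simp [h]
        · simp only [h, not_false_eq_true, if_true, true_and, mul_ite, mul_zero,
            Finset.sum_ite_eq, Finset.mem_univ]
          unfold Bm
          rw [if_pos hP, if_neg hQ, if_neg h]
          ring
      rw [Finset.sum_congr rfl (fun R _ => h1 R), Finset.sum_comm]
      refine Finset.sum_eq_zero fun b _ => ?_
      rw [← Finset.mul_sum, D.bal P.2 hP.2 u b, mul_zero]
    by_cases hP : (P.1 = 0 ∧ zd P.2)
    · by_cases hQ : (Q.1 = 0 ∧ zd Q.2)
      · exact absurd ⟨hP, hQ⟩ hPQ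
      · exact Finset.sum_eq_zero fun u _ => mixed P Q hP hQ u
    · by_cases hQ : (Q.1 = 0 ∧ zd Q.2)
      · refine Finset.sum_eq_zero fun u _ => ?_
        refine Eq.trans ?_ (mixed Q P hQ hP u)
        refine Finset.sum_congr rfl fun R _ => ?_
        split_ifs
        · rfl
        · ring
      · have h1 : ∀ u : U, ∑ R : G × G, (if ¬ (R.1 = 0 ∧ zd R.2) then
            Bm H0 zd f κ lam σ u P R * Bm H0 zd f κ lam σ u Q R else 0)
            = (σ P * σ Q) * (chi u (lam P) * chi u (lam Q)) *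
              (α * ∑ b, H0 (κ P) b * H0 (κ Q) b) := by
          intro u
          rw [← D.sum_kappa (fun b => H0 (κ P) b * H0 (κ Q) b), Finset.mul_sum]
          refine Finset.sum_congr rfl fun R _ => ?_
          by_cases h : (R.1 = 0 ∧ zd R.2)
          · simp [h]
          · rw [if_pos h, if_pos h]
            unfold Bm
            rw [if_neg hP, if_neg hQ, if_neg h, if_neg h]
            have e1 := sq_of_pm (D.s_pm R)
            have e2 := chi_sq u (lam R)
            linear_combination (σ P * σ Q * (chi u (lam P) * chi u (lam Q)) *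
              (H0 (κ P) (κ R) * H0 (κ Q) (κ R)) * (chi u (lam R) * chi u (lam R))) * e1 +
              (σ P * σ Q * (chi u (lam P) * chi u (lam Q)) *
              (H0 (κ P) (κ R) * H0 (κ Q) (κ R))) * e2
        rw [Finset.sum_congr rfl (fun u _ => h1 u), ← Finset.sum_mul, ← Finset.mul_sum]
        by_cases hk : κ P = κ Q
        · have hl : lam P ≠ lam Q := by
            intro hl
            rcases D.slot P Q hP hQ hk hl with h | h
            · exact hs h
            · exact hd h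
          rw [chi_orth _ _ hl]
          ring
        · rw [D.row _ _ hk]
          ring
  rw [hsecond, add_zero]

/-- the change of coordinates `(i, j) ↦ (i + j, i - j)` -/
theorem sd_bij (h2 : ∀ g : G, g + g = 0 → g = 0) :
    Bijective (fun p : G × G => (p.1 + p.2, p.1 - p.2)) := by
  rw [← Finite.injective_iff_bijective]
  rintro ⟨a, b⟩ ⟨a', b'⟩ h
  simp only [Prod.mk.injEq] at h
  obtain ⟨h1, h3⟩ := h
  have h4 : (a - a') + (a - a') = 0 := by
    have : (a - a') + (a - a') = ((a + b) - (a' + b')) + ((a - b) - (a' - b')) := by abel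
    rw [this, h1, h3]; simp
  have h5 : a = a' := sub_eq_zero.mp (h2 _ h4)
  subst h5
  have h6 : b = b' := by simpa using h1
  rw [h6]

theorem sd_sum (h2 : ∀ g : G, g + g = 0 → g = 0) (Φ : G × G → ℤ) :
    ∑ k : G, ∑ l : G, Φ (k + l, k - l) = ∑ R : G × G, Φ R := by
  rw [← (Equiv.ofBijective _ (sd_bij h2)).sum_comp Φ, Fintype.sum_prod_type]
  rfl

theorem Design.rows (D : Design G K0 H0 zd f κ lam σ α) (h2 : ∀ g : G, g + g = 0 → g = 0)
    (x y : G) (hxy : x ≠ y) :
    (∑ u, ∑ b, ∑ c, ∑ d, Bm H0 zd f κ lam σ u (x + b, x - b) (c + d, c - d) *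
      Bm H0 zd f κ lam σ u (y + b, y - b) (c + d, c - d) = 0) ∧
    (∑ u, ∑ a, ∑ c, ∑ d, Bm H0 zd f κ lam σ u (a + x, a - x) (c + d, c - d) *
      Bm H0 zd f κ lam σ u (a + y, a - y) (c + d, c - d) = 0) := by
  have hpaf := D.paf (y - x) (sub_ne_zero.mpr hxy.symm)
  constructor
  · rw [Finset.sum_comm]
    have h1 : ∀ b : G, ∑ u, ∑ c, ∑ d, Bm H0 zd f κ lam σ u (x + b, x - b) (c + d, c - d) *
        Bm H0 zd f κ lam σ u (y + b, y - b) (c + d, c - d)
        = ∑ d, (if zd d then ∑ u, f d u (x + b) * f d u (y + b) else 0) := by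
      intro b
      have : ∀ u : U, ∑ c, ∑ d, Bm H0 zd f κ lam σ u (x + b, x - b) (c + d, c - d) *
          Bm H0 zd f κ lam σ u (y + b, y - b) (c + d, c - d)
          = ∑ R : G × G, Bm H0 zd f κ lam σ u (x + b, x - b) R *
            Bm H0 zd f κ lam σ u (y + b, y - b) R := fun u =>
        sd_sum h2 (fun R => Bm H0 zd f κ lam σ u (x + b, x - b) R *
            Bm H0 zd f κ lam σ u (y + b, y - b) R)
      rw [Finset.sum_congr rfl (fun u _ => this u)]
      refine D.gram _ _ ?_ ?_ ?_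
      · rintro ⟨⟨h3, _⟩, ⟨h4, _⟩⟩
        exact hxy (add_right_cancel (h3.trans h4.symm))
      · exact fun h => hxy (add_right_cancel h)
      · exact fun h => hxy (sub_left_injective h)
    rw [Finset.sum_congr rfl (fun b _ => h1 b)]
    refine Eq.trans ?_ hpaf
    refine Fintype.sum_equiv (Equiv.addLeft x) _ _ ?_
    intro b
    have : x + b + (y - x) = y + b := by abel
    simp only [Equiv.coe_addLeft, this]
  · rw [Finset.sum_comm]
    have h1 : ∀ a : G, ∑ u, ∑ c, ∑ d, Bm H0 zd f κ lam σ u (a + x, a - x) (c + d, c - d) *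
        Bm H0 zd f κ lam σ u (a + y, a - y) (c + d, c - d)
        = ∑ d, (if zd d then ∑ u, f d u (a + x) * f d u (a + y) else 0) := by
      intro a
      have : ∀ u : U, ∑ c, ∑ d, Bm H0 zd f κ lam σ u (a + x, a - x) (c + d, c - d) *
          Bm H0 zd f κ lam σ u (a + y, a - y) (c + d, c - d)
          = ∑ R : G × G, Bm H0 zd f κ lam σ u (a + x, a - x) R *
            Bm H0 zd f κ lam σ u (a + y, a - y) R := fun u =>
        sd_sum h2 (fun R => Bm H0 zd f κ lam σ u (a + x, a - x) R *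
            Bm H0 zd f κ lam σ u (a + y, a - y) R)
      rw [Finset.sum_congr rfl (fun u _ => this u)]
      refine D.gram _ _ ?_ ?_ ?_
      · rintro ⟨⟨h3, _⟩, ⟨h4, _⟩⟩
        exact hxy (add_left_cancel (h3.trans h4.symm))
      · exact fun h => hxy (add_left_cancel h)
      · exact fun h => hxy (sub_right_injective h)
    rw [Finset.sum_congr rfl (fun a _ => h1 a)]
    refine Eq.trans ?_ hpaf
    refine Fintype.sum_equiv (Equiv.addRight x) _ _ ?_
    intro a
    have : a + x + (y - x) = a + y := by abel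
    simp only [Equiv.coe_addRight, this]

theorem Design.fourArr (D : Design G K0 H0 zd f κ lam σ α) (h2 : ∀ g : G, g + g = 0 → g = 0) :
    FourArr G (fun u a b c d => Bm H0 zd f κ lam σ u (a + b, a - b) (c + d, c - d)) where
  pm := fun u a b c d => D.Bm_pm u _ _
  d1 := fun x y hxy => (D.rows h2 x y hxy).1
  d2 := fun x y hxy => (D.rows h2 x y hxy).2
  d3 := by
    intro x y hxy
    have h := (D.transpose.rows h2 x y hxy).1
    rw [← h]
    refine Finset.sum_congr rfl fun u _ => ?_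
    have h3 : ∀ F : G → G → G → ℤ, ∑ a, ∑ b, ∑ d, F a b d = ∑ d, ∑ a, ∑ b, F a b d := by
      intro F
      rw [Finset.sum_congr rfl (fun a _ => Finset.sum_comm), Finset.sum_comm]
    rw [h3]
    refine Finset.sum_congr rfl fun d _ => Finset.sum_congr rfl fun a _ =>
      Finset.sum_congr rfl fun b _ => ?_
    rw [D.Bm_swap, D.Bm_swap]
  d4 := by
    intro x y hxy
    have h := (D.transpose.rows h2 x y hxy).2
    rw [← h]
    refine Finset.sum_congr rfl fun u _ => ?_
    have h3 : ∀ F : G → G → G → ℤ, ∑ a, ∑ b, ∑ c, F a b c = ∑ c, ∑ a, ∑ b, F a b c := by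
      intro F
      rw [Finset.sum_congr rfl (fun a _ => Finset.sum_comm), Finset.sum_comm]
    rw [h3]
    refine Finset.sum_congr rfl fun d _ => Finset.sum_congr rfl fun a _ =>
      Finset.sum_congr rfl fun b _ => ?_
    rw [D.Bm_swap, D.Bm_swap]

end

end Pool.Agent.HD996
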