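import Pool.Agent.HD996.TSeq2
import Pool.Agent.HD996.Core

set_option autoImplicit false
set_option linter.unusedSimpArgs false

namespace Pool.Agent.HD996

open Finset Function

/-- round robin -/
theorem exists_inc (M x τ : ℕ) (w : ℕ → ℕ) (hM : 0 < M) (hw : ∀ j < τ, w j ≤ M)
    (hs : ∑ j ∈ range τ, w j = M * x) :
    ∃ c : ℕ → ℕ → ℕ, (∀ j < τ, ∀ k, c j k = 0 ∨ c j k = 1) ∧
      (∀ j < τ, ∑ k ∈ range M, c j k = w j) ∧ (∀ k < M, ∑ j ∈ range τ, c j k = x) := by
  let P : ℕ → ℕ := fun j => ∑ i ∈ range j, w i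
  have hP : ∀ j, P (j + 1) = P j + w j := fun j => Finset.sum_range_succ _ _
  refine ⟨fun j k => ∑ n ∈ Ico (P j) (P (j + 1)), if n % M = k then 1 else 0, ?_, ?_, ?_⟩
  · intro j hj k
    beta_reduce
    rw [← Finset.card_filter]
    have : #{n ∈ Ico (P j) (P (j + 1)) | n % M = k} ≤ 1 := by
      rw [Finset.card_le_one]
      intro a ha b hb
      rw [mem_filter, mem_Ico, hP] at ha hb
      have hwj := hw j hj
      by_contra hne
      have h1 : a % M = b % M := ha.2.trans hb.2.symm
      rcases Nat.lt_or_gt_of_ne hne with h | h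
      · have h2 : M ∣ b - a := (Nat.modEq_iff_dvd' h.le).mp h1
        have := Nat.le_of_dvd (by omega) h2
        omega
      · have h2 : M ∣ a - b := (Nat.modEq_iff_dvd' h.le).mp h1.symm
        have := Nat.le_of_dvd (by omega) h2
        omega
    omega
  · intro j hj
    beta_reduce
    rw [Finset.sum_comm]
    have : ∀ n ∈ Ico (P j) (P (j + 1)), ∑ k ∈ range M, (if n % M = k then 1 else 0) = 1 := by
      intro n _
      rw [Finset.sum_ite_eq, if_pos (mem_range.mpr (Nat.mod_lt _ hM))]
    rw [Finset.sum_congr rfl this]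
    simp [hP]
  · intro k hk
    beta_reduce
    have h1 : ∀ T : ℕ, ∑ j ∈ range T, ∑ n ∈ Ico (P j) (P (j + 1)), (if n % M = k then 1 else 0)
        = ∑ n ∈ range (P T), if n % M = k then 1 else 0 := by
      intro T
      induction T with
      | zero => simp [P]
      | succ T ih =>
        rw [Finset.sum_range_succ, ih, Finset.range_eq_Ico, Finset.range_eq_Ico,
          Finset.sum_Ico_consecutive _ (Nat.zero_le _) (by rw [hP]; omega)]
    rw [h1 τ]
    have h2 : P τ = M * x := hs
    rw [h2]
    clear h1 h2 hs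
    induction x with
    | zero => simp
    | succ x ih =>
      rw [Nat.mul_succ, Finset.sum_range_add, ih]
      congr 1
      have : ∀ n ∈ range M, (if (M * x + n) % M = k then 1 else 0) = if n = k then 1 else 0 := by
        intro n hn
        rw [Nat.mul_add_mod, Nat.mod_eq_of_lt (mem_range.mp hn)]
      rw [Finset.sum_congr rfl this, Finset.sum_ite_eq', if_pos (mem_range.mpr hk)]

/-- balanced signs -/
theorem exists_signs {G : Type} [DecidableEq G] (A : Finset G) :
    ∃ s : G → ℤ, (∀ d, s d = 1 ∨ s d = -1) ∧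
      ∑ d ∈ A, s d = if #A % 2 = 0 then 0 else 1 := by
  induction A using Finset.induction with
  | empty => exact ⟨fun _ => 1, fun _ => Or.inl rfl, by simp⟩
  | insert a A ha ih =>
    obtain ⟨s, hs, hA⟩ := ih
    refine ⟨Function.update s a (if #A % 2 = 0 then 1 else -1), ?_, ?_⟩
    · intro d
      by_cases h : d = a
      · subst h
        rw [Function.update_self]
        split_ifs <;> simp
      · rw [Function.update_of_ne h]
        exact hs d
    · rw [Finset.sum_insert ha, Finset.card_insert_of_notMem ha, Function.update_self]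
      have : ∑ x ∈ A, Function.update s a (if #A % 2 = 0 then 1 else -1) x = ∑ x ∈ A, s x := by
        refine Finset.sum_congr rfl fun x hx => ?_
        rw [Function.update_of_ne]
        rintro rfl
        exact ha hx
      rw [this, hA]
      by_cases h : #A % 2 = 0
      · rw [if_pos h, if_pos h, if_neg (by omega)]
        norm_num
      · rw [if_neg h, if_neg h, if_pos (by omega)]
        norm_num

theorem sum_dom0 (M : ℕ) (G : ℕ → ℤ) :
    ∑ x ∈ range (2 * M + 1), (if 0 < x then G x else 0)
      = ∑ k ∈ range M, (G (2 * k + 1) + G (2 * k + 2)) := by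
  induction M with
  | zero => simp
  | succ M ih =>
    have : 2 * (M + 1) + 1 = 2 * M + 1 + 1 + 1 := by ring
    rw [this, Finset.sum_range_succ, Finset.sum_range_succ, ih, Finset.sum_range_succ,
      if_pos (by omega), if_pos (by omega)]
    ring

theorem sum_dom (t M : ℕ) (ht : t = 2 * M + 1 ∨ t = 2 * M + 3) (G : ℕ → ℤ) :
    ∑ x ∈ range t, (if 0 < x ∧ (x - 1) / 2 < M then G x else 0)
      = ∑ k ∈ range M, (G (2 * k + 1) + G (2 * k + 2)) := by
  have h0 : ∑ x ∈ range (2 * M + 1), (if 0 < x ∧ (x - 1) / 2 < M then G x else 0)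
      = ∑ k ∈ range M, (G (2 * k + 1) + G (2 * k + 2)) := by
    rw [← sum_dom0]
    refine Finset.sum_congr rfl fun x hx => ?_
    rw [mem_range] at hx
    by_cases h : 0 < x
    · rw [if_pos h, if_pos ⟨h, by omega⟩]
    · rw [if_neg h, if_neg (fun h' => h h'.1)]
  rcases ht with rfl | rfl
  · exact h0
  · have : 2 * M + 3 = 2 * M + 1 + 1 + 1 := by ring
    rw [this, Finset.sum_range_succ, Finset.sum_range_succ, h0, if_neg (by omega),
      if_neg (by omega), add_zero, add_zero]

theorem sum_zmod' (t : ℕ) [NeZero t] (g : ZMod t → ℤ) :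
    ∑ s : ZMod t, g s = ∑ x ∈ range t, g (x : ZMod t) := by
  rw [← sum_zmod t (fun x => g (x : ZMod t))]
  refine Finset.sum_congr rfl fun s _ => ?_
  rw [ZMod.natCast_zmod_val]

end Pool.Agent.HD996
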