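import Pool.Agent.HD996.PH
import Pool.Agent.HD996.Inc

set_option autoImplicit false
set_option linter.unusedSimpArgs false

namespace Pool.Agent.HD996

open Finset Function

/-- the rows of the construction -/
structure FData (t M ρ : ℕ) [NeZero t] (f : ZMod t → U → ZMod t → ℤ) (σ : ℕ → ℤ) : Prop where
  f_pm : ∀ d u s, f d u s = 1 ∨ f d u s = -1
  s_pm : ∀ x, σ x = 1 ∨ σ x = -1
  f0 : ∀ d : ZMod t, d.val < ρ → ∀ u, f d u 0 = 1
  paf : ∀ δ, δ ≠ 0 → ∑ s, ∑ d : ZMod t,
    (if d.val < ρ then ∑ u, f d u s * f d u (s + δ) else 0) = 0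
  dom : ∀ d : ZMod t, d.val < ρ → ∀ u, ∀ k < M,
    σ (2 * k + 1) * f d u ((2 * k + 1 : ℕ) : ZMod t)
      = σ (2 * k + 2) * f d u ((2 * k + 2 : ℕ) : ZMod t)
  sp : t = 2 * M + 3 → ∀ d : ZMod t, d.val < ρ → ∀ u,
    f d u ((2 * M + 1 : ℕ) : ZMod t) = (if u.1 then -1 else 1) ∧
    f d u ((2 * M + 2 : ℕ) : ZMod t) = (if u.2 then -1 else 1)

theorem exists_FData {t M K k1 k2 ρ : ℕ} [NeZero t] {c : ℕ → ℕ} {σ : ℕ → ℤ}
    (hT : TSD t M K k1 k2 c σ) (hP : PH K (4 * ρ)) (hρ : ρ ≤ t)
    (ht : t = 2 * M + 1 ∨ t = 2 * M + 3) : ∃ f, FData t M ρ f σ := by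
  obtain ⟨g, gpm, g0, g1, g2, go⟩ := hP.label hT.h1 hT.h2 hT.h12 hT.h1K hT.h2K
  refine ⟨fun d u s => (if d.val < ρ then g d.val u (c s.val) else 1) * σ s.val, ?_⟩
  have hval : ∀ n < t, ((n : ℕ) : ZMod t).val = n := fun n hn => ZMod.val_cast_of_lt hn
  refine { f_pm := ?_, s_pm := hT.pm, f0 := ?_, paf := ?_, dom := ?_, sp := ?_ }
  · intro d u s
    beta_reduce
    rcases hT.pm s.val with h | h <;> rw [h] <;> split_ifs <;>
      first
        | (rcases gpm d.val u (c s.val) with h' | h' <;> rw [h'] <;> simp)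
        | simp
  · intro d hd u
    beta_reduce
    rw [if_pos hd, ZMod.val_zero, hT.zero, hT.s0, g0 _ hd]
    rfl
  · intro δ hδ
    have h1 : ∀ s : ZMod t, ∑ d : ZMod t, (if d.val < ρ then
        ∑ u, ((if d.val < ρ then g d.val u (c s.val) else 1) * σ s.val) *
          ((if d.val < ρ then g d.val u (c (s + δ).val) else 1) * σ (s + δ).val) else 0)
        = (4 * (ρ : ℤ)) * (if c s.val = c (s + δ).val then σ s.val * σ (s + δ).val else 0) := by
      intro s
      have h2 : ∑ d : ZMod t, (if d.val < ρ then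
        ∑ u, ((if d.val < ρ then g d.val u (c s.val) else 1) * σ s.val) *
          ((if d.val < ρ then g d.val u (c (s + δ).val) else 1) * σ (s + δ).val) else 0)
        = (σ s.val * σ (s + δ).val) * ∑ r ∈ range ρ, ∑ u, g r u (c s.val) * g r u (c (s + δ).val) := by
        have h3 : ∀ d : ZMod t, (if d.val < ρ then
            ∑ u, ((if d.val < ρ then g d.val u (c s.val) else 1) * σ s.val) *
              ((if d.val < ρ then g d.val u (c (s + δ).val) else 1) * σ (s + δ).val) else 0)
            = (fun r => if r < ρ then (σ s.val * σ (s + δ).val) *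
                ∑ u, g r u (c s.val) * g r u (c (s + δ).val) else 0) d.val := by
          intro d
          beta_reduce
          by_cases h : d.val < ρ
          · simp only [h, if_true]
            rw [Finset.mul_sum]
            refine Finset.sum_congr rfl fun u _ => ?_
            ring
          · simp only [h, if_false]
        rw [Finset.sum_congr rfl (fun d _ => h3 d), sum_zmod t (fun r => if r < ρ then
          (σ s.val * σ (s + δ).val) * ∑ u, g r u (c s.val) * g r u (c (s + δ).val) else 0),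
          Finset.mul_sum]
        symm
        refine Eq.trans ?_ (Finset.sum_subset (Finset.range_mono hρ) ?_)
        · refine Finset.sum_congr rfl fun r hr => ?_
          rw [if_pos (mem_range.mp hr)]
        · intro r _ hr
          rw [if_neg (fun h => hr (mem_range.mpr h))]
      rw [h2]
      by_cases h : c s.val = c (s + δ).val
      · rw [if_pos h, h]
        have h4 : ∀ r ∈ range ρ, ∑ u : U, g r u (c (s + δ).val) * g r u (c (s + δ).val) = 4 := by
          intro r _
          rw [Finset.sum_congr rfl (fun u _ => sq_of_pm (gpm r u _))]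
          simp [U]
        rw [Finset.sum_congr rfl h4]
        simp
        ring
      · rw [if_neg h, go _ _ (hT.lt _ (ZMod.val_lt _)) (hT.lt _ (ZMod.val_lt _)) h]
        ring
    rw [Finset.sum_congr rfl (fun s _ => h1 s), ← Finset.mul_sum, hT.toTS.periodic δ hδ, mul_zero]
  · intro d hd u k hk
    beta_reduce
    rw [if_pos hd, if_pos hd, hval _ (by omega), hval _ (by omega), hT.dom k hk]
    have e1 := sq_of_pm (hT.pm (2 * k + 1))
    have e2 := sq_of_pm (hT.pm (2 * k + 2))
    linear_combination (g d.val u (c (2 * k + 2))) * e1 - (g d.val u (c (2 * k + 2))) * e2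
  · intro h d hd u
    obtain ⟨c1, c2, s1, s2⟩ := hT.sp h
    beta_reduce
    rw [if_pos hd, if_pos hd, hval _ (by omega), hval _ (by omega), c1, c2, s1, s2, g1 _ hd,
      g2 _ hd, mul_one, mul_one]
    exact ⟨rfl, rfl⟩

end Pool.Agent.HD996
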