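import Pool.Agent.HD996.Basic

set_option autoImplicit false
set_option linter.unusedSimpArgs false

namespace Pool.Agent.HD996

open Finset Function

/-- index set of the four arrays -/
abbrev U : Type := Bool × Bool

/-- Four `±1` arrays on `G^4` whose correlations cancel in every direction. -/
structure FourArr (G : Type) [Fintype G] [DecidableEq G] (Z : U → G → G → G → G → ℤ) : Prop where
  pm : ∀ u a b c d, Z u a b c d = 1 ∨ Z u a b c d = -1
  d1 : ∀ x y, x ≠ y → ∑ u, ∑ b, ∑ c, ∑ d, Z u x b c d * Z u y b c d = 0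
  d2 : ∀ x y, x ≠ y → ∑ u, ∑ a, ∑ c, ∑ d, Z u a x c d * Z u a y c d = 0
  d3 : ∀ x y, x ≠ y → ∑ u, ∑ a, ∑ b, ∑ d, Z u a b x d * Z u a b y d = 0
  d4 : ∀ x y, x ≠ y → ∑ u, ∑ a, ∑ b, ∑ c, Z u a b c x * Z u a b c y = 0

def e4 (V : Type) : (Fin 4 → V) ≃ V × V × V × V where
  toFun i := (i 0, i 1, i 2, i 3)
  invFun p := ![p.1, p.2.1, p.2.2.1, p.2.2.2]
  left_inv i := by
    funext j
    fin_cases j <;> rfl
  right_inv p := rfl

theorem sum4 {V : Type} [Fintype V] (F : V → V → V → V → ℤ) :
    ∑ i : Fin 4 → V, F (i 0) (i 1) (i 2) (i 3) = ∑ a, ∑ b, ∑ c, ∑ d, F a b c d := by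
  rw [Fintype.sum_equiv (e4 V) (fun i : Fin 4 → V => F (i 0) (i 1) (i 2) (i 3))
    (fun p => F p.1 p.2.1 p.2.2.1 p.2.2.2) (fun i => rfl)]
  simp only [Fintype.sum_prod_type]

theorem HD4_of_curried {V : Type} [Fintype V] [DecidableEq V] (A : V → V → V → V → ℤ)
    (hA : ∀ a b c d, A a b c d = 1 ∨ A a b c d = -1)
    (h1 : ∀ x y, x ≠ y → ∑ b, ∑ c, ∑ d, A x b c d * A y b c d = 0)
    (h2 : ∀ x y, x ≠ y → ∑ a, ∑ c, ∑ d, A a x c d * A a y c d = 0)
    (h3 : ∀ x y, x ≠ y → ∑ a, ∑ b, ∑ d, A a b x d * A a b y d = 0)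
    (h4 : ∀ x y, x ≠ y → ∑ a, ∑ b, ∑ c, A a b c x * A a b c y = 0) : HD 4 V := by
  refine ⟨fun i => A (i 0) (i 1) (i 2) (i 3), fun i => hA _ _ _ _, ?_⟩
  intro l x y hxy
  fin_cases l
  · have : ∀ (i : Fin 4 → V) (z : V), A (update i 0 z 0) (update i 0 z 1) (update i 0 z 2)
        (update i 0 z 3) = A z (i 1) (i 2) (i 3) := fun i z => rfl
    simp only [Fin.zero_eta, this]
    rw [sum4 (fun _ b c d => A x b c d * A y b c d)]
    simp [h1 x y hxy]
  · have : ∀ (i : Fin 4 → V) (z : V), A (update i 1 z 0) (update i 1 z 1) (update i 1 z 2)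
        (update i 1 z 3) = A (i 0) z (i 2) (i 3) := fun i z => rfl
    simp only [Fin.mk_one, this]
    rw [sum4 (fun a _ c d => A a x c d * A a y c d)]
    rw [Finset.sum_comm]
    simp [h2 x y hxy]
  · have : ∀ (i : Fin 4 → V) (z : V), A (update i 2 z 0) (update i 2 z 1) (update i 2 z 2)
        (update i 2 z 3) = A (i 0) (i 1) z (i 3) := fun i z => rfl
    simp only [Fin.reduceFinMk, this]
    rw [sum4 (fun a b _ d => A a b x d * A a b y d)]
    have : ∀ a : V, ∑ b : V, ∑ _c : V, ∑ d : V, A a b x d * A a b y d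
        = ∑ _c : V, ∑ b : V, ∑ d : V, A a b x d * A a b y d := fun a => Finset.sum_comm
    simp only [this]
    rw [Finset.sum_comm]
    simp [h3 x y hxy]
  · have : ∀ (i : Fin 4 → V) (z : V), A (update i 3 z 0) (update i 3 z 1) (update i 3 z 2)
        (update i 3 z 3) = A (i 0) (i 1) (i 2) z := fun i z => rfl
    simp only [Fin.reduceFinMk, this]
    rw [sum4 (fun a b c _ => A a b c x * A a b c y)]
    simp only [Finset.sum_const, Finset.card_univ, ← Finset.smul_sum, h4 x y hxy, smul_zero]

/-- the sign `(-1)^(ε₁ε₃ + ε₂ε₄)` -/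
def sg (e1 e2 e3 e4 : Bool) : ℤ := if ((e1 && e3) ^^ (e2 && e4)) then -1 else 1

theorem FourArr.hd {G : Type} [Fintype G] [DecidableEq G] {Z : U → G → G → G → G → ℤ}
    (h : FourArr G Z) : HD 4 (Bool × G) := by
  refine HD4_of_curried
    (fun a b c d => sg a.1 b.1 c.1 d.1 * Z (a.1 ^^ b.1, c.1 ^^ d.1) a.2 b.2 c.2 d.2) ?_ ?_ ?_ ?_ ?_
  · intro a b c d
    unfold sg
    rcases h.pm (a.1 ^^ b.1, c.1 ^^ d.1) a.2 b.2 c.2 d.2 with h | h <;> rw [h] <;>
      split_ifs <;> simp
  · rintro ⟨e, x⟩ ⟨e', y⟩ hxy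
    simp only [Fintype.sum_prod_type, Fintype.sum_bool]
    have key := h.d1 x y
    simp only [U, Fintype.sum_prod_type, Fintype.sum_bool] at key
    cases e <;> cases e' <;>
      simp only [sg, Bool.and_true, Bool.and_false, Bool.true_and, Bool.false_and, Bool.xor_false,
        Bool.xor_true, Bool.not_true, Bool.not_false, if_true, if_false, Bool.false_eq_true,
        Bool.xor_self, Bool.false_xor, Bool.true_xor, one_mul, neg_mul, mul_neg, neg_neg,
        Finset.sum_neg_distrib, Finset.sum_add_distrib] <;>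
      first
        | ring1
        | (have hne : x ≠ y := fun h => hxy (by rw [h])
           have := key hne
           linarith)
  · rintro ⟨e, x⟩ ⟨e', y⟩ hxy
    simp only [Fintype.sum_prod_type, Fintype.sum_bool]
    have key := h.d2 x y
    simp only [U, Fintype.sum_prod_type, Fintype.sum_bool] at key
    cases e <;> cases e' <;>
      simp only [sg, Bool.and_true, Bool.and_false, Bool.true_and, Bool.false_and, Bool.xor_false,
        Bool.xor_true, Bool.not_true, Bool.not_false, if_true, if_false, Bool.false_eq_true,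
        Bool.xor_self, Bool.false_xor, Bool.true_xor, one_mul, neg_mul, mul_neg, neg_neg,
        Finset.sum_neg_distrib, Finset.sum_add_distrib] <;>
      first
        | ring1
        | (have hne : x ≠ y := fun h => hxy (by rw [h])
           have := key hne
           linarith)
  · rintro ⟨e, x⟩ ⟨e', y⟩ hxy
    simp only [Fintype.sum_prod_type, Fintype.sum_bool]
    have key := h.d3 x y
    simp only [U, Fintype.sum_prod_type, Fintype.sum_bool] at key
    cases e <;> cases e' <;>
      simp only [sg, Bool.and_true, Bool.and_false, Bool.true_and, Bool.false_and, Bool.xor_false,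
        Bool.xor_true, Bool.not_true, Bool.not_false, if_true, if_false, Bool.false_eq_true,
        Bool.xor_self, Bool.false_xor, Bool.true_xor, one_mul, neg_mul, mul_neg, neg_neg,
        Finset.sum_neg_distrib, Finset.sum_add_distrib] <;>
      first
        | ring1
        | (have hne : x ≠ y := fun h => hxy (by rw [h])
           have := key hne
           linarith)
  · rintro ⟨e, x⟩ ⟨e', y⟩ hxy
    simp only [Fintype.sum_prod_type, Fintype.sum_bool]
    have key := h.d4 x y
    simp only [U, Fintype.sum_prod_type, Fintype.sum_bool] at key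
    cases e <;> cases e' <;>
      simp only [sg, Bool.and_true, Bool.and_false, Bool.true_and, Bool.false_and, Bool.xor_false,
        Bool.xor_true, Bool.not_true, Bool.not_false, if_true, if_false, Bool.false_eq_true,
        Bool.xor_self, Bool.false_xor, Bool.true_xor, one_mul, neg_mul, mul_neg, neg_neg,
        Finset.sum_neg_distrib, Finset.sum_add_distrib] <;>
      first
        | ring1
        | (have hne : x ≠ y := fun h => hxy (by rw [h])
           have := key hne
           linarith)

end Pool.Agent.HD996
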