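import Mathlib

set_option autoImplicit false
set_option linter.unusedSimpArgs false

namespace Pool.Agent.HD996

open Finset Function

/-- Hadamard matrix with rows and columns indexed by `ι` -/
structure HdT (ι : Type) [Fintype ι] [DecidableEq ι] (H : ι → ι → ℤ) : Prop where
  pm : ∀ a b, H a b = 1 ∨ H a b = -1
  row : ∀ a a', a ≠ a' → ∑ b, H a b * H a' b = 0
  col : ∀ b b', b ≠ b' → ∑ a, H a b * H a b' = 0

theorem HdT.one : HdT (Fin 1) (fun _ _ => 1) where
  pm := fun _ _ => Or.inl rfl
  row := fun a a' h => absurd (Subsingleton.elim a a') h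
  col := fun a a' h => absurd (Subsingleton.elim a a') h

def h12 (a b : Fin 12) : ℤ :=
  if a.val = 0 then 1 else if b.val = 0 then -1 else if a.val = b.val then 1 else
    if (b.val + 11 - a.val) % 11 = 1 ∨ (b.val + 11 - a.val) % 11 = 3 ∨
      (b.val + 11 - a.val) % 11 = 4 ∨ (b.val + 11 - a.val) % 11 = 5 ∨
      (b.val + 11 - a.val) % 11 = 9 then 1 else -1

theorem HdT.twelve : HdT (Fin 12) h12 where
  pm := by decide +kernel
  row := by decide +kernel
  col := by decide +kernel

theorem HdT.double {ι : Type} [Fintype ι] [DecidableEq ι] {H : ι → ι → ℤ} (h : HdT ι H) :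
    HdT (Bool × ι) (fun a b => (if (a.1 && b.1) then -1 else 1) * H a.2 b.2) where
  pm := by
    intro a b
    rcases h.pm a.2 b.2 with h | h <;> rw [h] <;> split_ifs <;> simp
  row := by
    rintro ⟨e, a⟩ ⟨e', a'⟩ hne
    rw [Fintype.sum_prod_type, Fintype.sum_bool]
    by_cases h1 : a = a'
    · subst h1
      have h2 : e ≠ e' := fun h => hne (by rw [h])
      cases e <;> cases e' <;> first | exact absurd rfl h2 | simp
    · have h3 := h.row a a' h1
      have h4 : ∀ x y : ℤ, ∑ b, x * H a b * (y * H a' b) = 0 := by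
        intro x y
        have : ∀ b, x * H a b * (y * H a' b) = (x * y) * (H a b * H a' b) := fun b => by ring
        rw [Finset.sum_congr rfl (fun b _ => this b), ← Finset.mul_sum, h3, mul_zero]
      exact (congrArg₂ (· + ·)
        (h4 (if (e && true) then -1 else 1) (if (e' && true) then -1 else 1))
        (h4 (if (e && false) then -1 else 1) (if (e' && false) then -1 else 1))).trans
        (add_zero 0)
  col := by
    rintro ⟨e, a⟩ ⟨e', a'⟩ hne
    rw [Fintype.sum_prod_type, Fintype.sum_bool]
    by_cases h1 : a = a'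
    · subst h1
      have h2 : e ≠ e' := fun h => hne (by rw [h])
      cases e <;> cases e' <;> first | exact absurd rfl h2 | simp
    · have h3 := h.col a a' h1
      have h4 : ∀ x y : ℤ, ∑ b, x * H b a * (y * H b a') = 0 := by
        intro x y
        have : ∀ b, x * H b a * (y * H b a') = (x * y) * (H b a * H b a') := fun b => by ring
        rw [Finset.sum_congr rfl (fun b _ => this b), ← Finset.mul_sum, h3, mul_zero]
      exact (congrArg₂ (· + ·)
        (h4 (if (true && e) then -1 else 1) (if (true && e') then -1 else 1))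
        (h4 (if (false && e) then -1 else 1) (if (false && e') then -1 else 1))).trans
        (add_zero 0)

theorem HdT.congr {ι κ : Type} [Fintype ι] [DecidableEq ι] [Fintype κ] [DecidableEq κ]
    {H : ι → ι → ℤ} (e : κ ≃ ι) (h : HdT ι H) : HdT κ (fun a b => H (e a) (e b)) where
  pm := fun a b => h.pm _ _
  row := by
    intro a a' hne
    rw [Equiv.sum_comp e (fun b => H (e a) b * H (e a') b)]
    exact h.row _ _ (fun h => hne (e.injective h))
  col := by
    intro a a' hne
    rw [Equiv.sum_comp e (fun b => H b (e a) * H b (e a'))]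
    exact h.col _ _ (fun h => hne (e.injective h))

/-- the order `n` is a Hadamard order -/
def HadOrd (n : ℕ) : Prop := ∃ H : Fin n → Fin n → ℤ, HdT (Fin n) H

theorem HadOrd.double {n : ℕ} (h : HadOrd n) : HadOrd (2 * n) := by
  obtain ⟨H, hH⟩ := h
  have e : Fin (2 * n) ≃ Bool × Fin n := Fintype.equivOfCardEq (by simp)
  exact ⟨_, hH.double.congr e⟩

theorem HadOrd.mul_pow {n : ℕ} (h : HadOrd n) (k : ℕ) : HadOrd (2 ^ k * n) := by
  induction k with
  | zero => simpa using h
  | succ k ih =>
    rw [pow_succ', mul_assoc]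
    exact ih.double

theorem HadOrd.two_pow (k : ℕ) : HadOrd (2 ^ k) := by
  simpa using HadOrd.mul_pow ⟨_, HdT.one⟩ k

theorem HadOrd.twelve_pow (k : ℕ) : HadOrd (2 ^ k * 12) :=
  HadOrd.mul_pow ⟨_, HdT.twelve⟩ k

end Pool.Agent.HD996
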