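import Pool.Agent.HD996.TSeq2
import Pool.Agent.HD996.Core

set_option autoImplicit false
set_option linter.unusedSimpArgs false

namespace Pool.Agent.HD996

open Finset Function

/-- partial Hadamard matrices: `K` orthogonal rows with `n` columns -/
def PH (K n : ℕ) : Prop := ∃ (C : Type) (_ : Fintype C) (M : ℕ → C → ℤ), Fintype.card C = n ∧
  (∀ k c, M k c = 1 ∨ M k c = -1) ∧
    ∀ k k', k < K → k' < K → k ≠ k' → ∑ c, M k c * M k' c = 0

theorem PH.mono {K K' n : ℕ} (h : PH K n) (hK : K' ≤ K) : PH K' n := by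
  obtain ⟨C, i, M, h1, h2, h3⟩ := h
  exact ⟨C, i, M, h1, h2, fun k k' hk hk' => h3 k k' (by omega) (by omega)⟩

theorem PH.zero (K : ℕ) : PH K 0 :=
  ⟨Empty, inferInstance, fun _ _ => 1, by simp, fun _ _ => Or.inl rfl, fun _ _ _ _ _ => by simp⟩

theorem PH.add {K n n' : ℕ} (h : PH K n) (h' : PH K n') : PH K (n + n') := by
  obtain ⟨C, i, M, h1, h2, h3⟩ := h
  obtain ⟨C', i', M', h1', h2', h3'⟩ := h'
  refine ⟨C ⊕ C', inferInstance, fun k c => Sum.elim (M k) (M' k) c, ?_, ?_, ?_⟩
  · rw [Fintype.card_sum, h1, h1']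
  · rintro k (c | c)
    · exact h2 k c
    · exact h2' k c
  · intro k k' hk hk' hne
    rw [Fintype.sum_sum_type]
    simp only [Sum.elim_inl, Sum.elim_inr]
    rw [h3 k k' hk hk' hne, h3' k k' hk hk' hne, add_zero]

theorem PH.mul {K n : ℕ} (h : PH K n) (β : ℕ) : PH K (β * n) := by
  induction β with
  | zero => simpa using PH.zero K
  | succ β ih =>
    rw [add_mul, one_mul]
    exact ih.add h

theorem PH.double {K n : ℕ} (h : PH K n) : PH (2 * K) (2 * n) := by
  obtain ⟨C, i, M, h1, h2, h3⟩ := h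
  refine ⟨Bool × C, inferInstance,
    fun k c => (if (decide (k % 2 = 1) && c.1) then -1 else 1) * M (k / 2) c.2, ?_, ?_, ?_⟩
  · rw [Fintype.card_prod, h1, Fintype.card_bool]
  · intro k c
    beta_reduce
    rcases h2 (k / 2) c.2 with h | h <;> rw [h] <;> split_ifs <;> simp
  · intro k k' hk hk' hne
    rw [Fintype.sum_prod_type, Fintype.sum_bool]
    beta_reduce
    by_cases hh : k / 2 = k' / 2
    · have h4 : k % 2 ≠ k' % 2 := by omega
      rw [hh]
      have h5 : k % 2 = 1 ∧ k' % 2 = 0 ∨ k % 2 = 0 ∧ k' % 2 = 1 := by omega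
      rcases h5 with ⟨h5, h6⟩ | ⟨h5, h6⟩ <;> simp [h5, h6]
    · have h3 := h3 (k / 2) (k' / 2) (by omega) (by omega) hh
      have h4 : ∀ x y : ℤ, ∑ b, x * M (k / 2) b * (y * M (k' / 2) b) = 0 := by
        intro x y
        have : ∀ b, x * M (k / 2) b * (y * M (k' / 2) b)
          = (x * y) * (M (k / 2) b * M (k' / 2) b) := fun b => by ring
        rw [Finset.sum_congr rfl (fun b _ => this b), ← Finset.mul_sum, h3, mul_zero]
      exact (congrArg₂ (· + ·)
        (h4 (if (decide (k % 2 = 1) && true) then -1 else 1)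
          (if (decide (k' % 2 = 1) && true) then -1 else 1))
        (h4 (if (decide (k % 2 = 1) && false) then -1 else 1)
          (if (decide (k' % 2 = 1) && false) then -1 else 1))).trans
        (add_zero 0)

theorem PH.two_pow (b : ℕ) : PH (2 ^ b) (2 ^ b) := by
  induction b with
  | zero =>
    exact ⟨Unit, inferInstance, fun _ _ => 1, by simp, fun _ _ => Or.inl rfl,
      fun k k' h h' hne => by simp at h h'; omega⟩
  | succ b ih =>
    rw [pow_succ']
    exact ih.double

/-- the three labels -/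
def lb (c : ℕ) : U := if c = 0 then (false, false) else if c = 1 then (true, false) else
  (false, true)

theorem lb_inj {a b : ℕ} (ha : a < 3) (hb : b < 3) (h : a ≠ b) : lb a ≠ lb b := by
  interval_cases a <;> interval_cases b <;> first | exact absurd rfl h | decide

theorem PH.golay (e : ℕ) : PH (2 ^ (e + 1) + 1) (4 * (2 ^ (e + 1) + 1)) := by
  obtain ⟨A, B, hG⟩ := exists_GP e
  have hT := TS.one.append hG (by norm_num) (by norm_num)
  have hN : 1 + 2 ^ e + 2 ^ e = 2 ^ (e + 1) + 1 := by rw [pow_succ]; ring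
  rw [hN] at hT
  set N := 2 ^ (e + 1) + 1 with hNdef
  obtain ⟨c, σ, hT⟩ : ∃ c σ, TS N 3 c σ := ⟨_, _, hT⟩
  have : NeZero N := ⟨by omega⟩
  refine ⟨ZMod N × U, inferInstance,
    fun k x => chi x.2 (lb (c (x.1 - (k : ZMod N)).val)) * σ (x.1 - (k : ZMod N)).val, ?_, ?_, ?_⟩
  · rw [Fintype.card_prod, ZMod.card]
    rw [mul_comm]
    rfl
  · intro k x
    beta_reduce
    rcases chi_pm x.2 (lb (c (x.1 - (k : ZMod N)).val)) with h | h <;>
      rcases hT.pm (x.1 - (k : ZMod N)).val with h' | h' <;> rw [h, h'] <;> simp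
  · intro k k' hk hk' hne
    have hδ : ((k : ZMod N) - (k' : ZMod N)) ≠ 0 := by
      intro h
      have h2 : (k : ZMod N) = (k' : ZMod N) := sub_eq_zero.mp h
      rw [ZMod.natCast_eq_natCast_iff'] at h2
      rw [Nat.mod_eq_of_lt hk, Nat.mod_eq_of_lt hk'] at h2
      exact hne h2
    have hP := hT.periodic _ hδ
    rw [Fintype.sum_prod_type]
    have h1 : ∀ x : ZMod N, ∑ u : U, chi u (lb (c (x - (k : ZMod N)).val)) *
        σ (x - (k : ZMod N)).val * (chi u (lb (c (x - (k' : ZMod N)).val)) *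
        σ (x - (k' : ZMod N)).val)
        = 4 * (if c (x - (k : ZMod N)).val = c (x - (k' : ZMod N)).val then
          σ (x - (k : ZMod N)).val * σ (x - (k' : ZMod N)).val else 0) := by
      intro x
      have h2 : ∀ u : U, chi u (lb (c (x - (k : ZMod N)).val)) *
        σ (x - (k : ZMod N)).val * (chi u (lb (c (x - (k' : ZMod N)).val)) *
        σ (x - (k' : ZMod N)).val) = (σ (x - (k : ZMod N)).val * σ (x - (k' : ZMod N)).val) *
          (chi u (lb (c (x - (k : ZMod N)).val)) * chi u (lb (c (x - (k' : ZMod N)).val))) :=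
        fun u => by ring
      rw [Finset.sum_congr rfl (fun u _ => h2 u), ← Finset.mul_sum]
      by_cases h : c (x - (k : ZMod N)).val = c (x - (k' : ZMod N)).val
      · rw [if_pos h, h, Finset.sum_congr rfl (fun u _ => chi_sq u _)]
        simp [U]
        ring
      · rw [if_neg h, chi_orth _ _ (lb_inj (hT.lt _ (ZMod.val_lt _)) (hT.lt _ (ZMod.val_lt _)) h)]
        ring
    rw [Finset.sum_congr rfl (fun x _ => h1 x), ← Finset.mul_sum]
    have h5 : ∑ x : ZMod N, (if c (x - (k : ZMod N)).val = c (x - (k' : ZMod N)).val then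
          σ (x - (k : ZMod N)).val * σ (x - (k' : ZMod N)).val else 0)
        = ∑ s : ZMod N, (if c s.val = c (s + ((k : ZMod N) - (k' : ZMod N))).val then
          σ s.val * σ (s + ((k : ZMod N) - (k' : ZMod N))).val else 0) := by
      refine Fintype.sum_equiv (Equiv.subRight (k : ZMod N)) _ _ ?_
      intro x
      have : x - (k : ZMod N) + ((k : ZMod N) - (k' : ZMod N)) = x - (k' : ZMod N) := by abel
      simp only [Equiv.subRight_apply, this]
    rw [h5, hP, mul_zero]

/-- representable numbers -/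
theorem PH.rep {K ρ b e β1 β2 : ℕ} (hb : K ≤ 2 ^ (b + 2)) (he : K ≤ 2 ^ (e + 1) + 1)
    (hρ : ρ = β1 * 2 ^ b + β2 * (2 ^ (e + 1) + 1)) : PH K (4 * ρ) := by
  have h1 := (((PH.two_pow (b + 2)).mono hb).mul β1).add (((PH.golay e).mono he).mul β2)
  have h2 : β1 * 2 ^ (b + 2) + β2 * (4 * (2 ^ (e + 1) + 1)) = 4 * ρ := by
    rw [hρ, pow_add]; ring
  rwa [h2] at h1

/-- Labelling of the columns of a partial Hadamard matrix. -/
theorem PH.label {K ρ k1 k2 : ℕ} (h : PH K (4 * ρ)) (h1 : 0 < k1) (h2 : 0 < k2) (h12 : k1 ≠ k2)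
    (h1K : k1 < K) (h2K : k2 < K) :
    ∃ g : ℕ → U → ℕ → ℤ, (∀ r u k, g r u k = 1 ∨ g r u k = -1) ∧
      (∀ r < ρ, ∀ u, g r u 0 = 1) ∧
      (∀ r < ρ, ∀ u, g r u k1 = if u.1 then -1 else 1) ∧
      (∀ r < ρ, ∀ u, g r u k2 = if u.2 then -1 else 1) ∧
      ∀ k k', k < K → k' < K → k ≠ k' → ∑ r ∈ range ρ, ∑ u, g r u k * g r u k' = 0 := by
  classical
  obtain ⟨C, i, M0, hc, hpm, ho⟩ := h
  -- normalise
  obtain ⟨M, hM⟩ : ∃ M : ℕ → C → ℤ, M = fun k c => M0 k c * M0 0 c := ⟨_, rfl⟩
  have hMpm : ∀ k c, M k c = 1 ∨ M k c = -1 := by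
    intro k c
    rw [hM]
    rcases hpm k c with h | h <;> rcases hpm 0 c with h' | h' <;> simp [h, h']
  have hM0 : ∀ c, M 0 c = 1 := by
    intro c
    rw [hM]
    exact sq_of_pm (hpm 0 c)
  have hMo : ∀ k k', k < K → k' < K → k ≠ k' → ∑ c, M k c * M k' c = 0 := by
    intro k k' hk hk' hne
    rw [← ho k k' hk hk' hne]
    refine Finset.sum_congr rfl fun c _ => ?_
    rw [hM]
    have := sq_of_pm (hpm 0 c)
    linear_combination (M0 k c * M0 k' c) * this
  have hK0 : 0 < K := by omega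
  have s1 : ∑ c, M k1 c = 0 := by
    have := hMo k1 0 h1K hK0 (by omega)
    simpa [hM0] using this
  have s2 : ∑ c, M k2 c = 0 := by
    have := hMo k2 0 h2K hK0 (by omega)
    simpa [hM0] using this
  have s12 : ∑ c, M k1 c * M k2 c = 0 := hMo k1 k2 h1K h2K h12
  let sb : Bool → ℤ := fun b => if b then -1 else 1
  let typ : C → U := fun c => (decide (M k1 c = -1), decide (M k2 c = -1))
  have hcard : ∀ u : U, Fintype.card {c // typ c = u} = ρ := by
    intro u
    have h3 : ((Fintype.card {c // typ c = u} : ℕ) : ℤ) * 4 = 4 * ρ := by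
      rw [Fintype.card_subtype, Finset.card_filter]
      push_cast
      rw [Finset.sum_mul]
      have h4 : ∀ c, (if typ c = u then (1 : ℤ) else 0) * 4
          = 1 + sb u.1 * M k1 c + sb u.2 * M k2 c + (sb u.1 * sb u.2) * (M k1 c * M k2 c) := by
        intro c
        obtain ⟨u1, u2⟩ := u
        simp only [typ, sb]
        rcases hMpm k1 c with h | h <;> rcases hMpm k2 c with h' | h' <;>
          cases u1 <;> cases u2 <;> simp [h, h']
      rw [Finset.sum_congr rfl (fun c _ => h4 c)]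
      rw [Finset.sum_add_distrib, Finset.sum_add_distrib, Finset.sum_add_distrib,
        ← Finset.mul_sum, ← Finset.mul_sum, ← Finset.mul_sum, s1, s2, s12]
      simp [hc]
    have h5 : ((Fintype.card {c // typ c = u} : ℕ) : ℤ) = ρ := by linarith
    exact_mod_cast h5
  let eq : ∀ u : U, {c // typ c = u} ≃ Fin ρ := fun u => Fintype.equivFinOfCardEq (hcard u)
  refine ⟨fun r u k => if h : r < ρ then M k ((eq u).symm ⟨r, h⟩).1 else 1, ?_, ?_, ?_, ?_, ?_⟩
  · intro r u k
    beta_reduce
    split_ifs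
    · exact hMpm _ _
    · exact Or.inl rfl
  · intro r hr u
    beta_reduce
    rw [dif_pos hr, hM0]
  · intro r hr u
    beta_reduce
    rw [dif_pos hr]
    have h3 := ((eq u).symm ⟨r, hr⟩).2
    simp only [typ] at h3
    have h4 := congrArg Prod.fst h3
    simp only at h4
    rcases hMpm k1 ((eq u).symm ⟨r, hr⟩).1 with h | h
    · rw [h] at h4 ⊢
      simp at h4
      simp [← h4]
    · rw [h] at h4 ⊢
      simp at h4
      simp [← h4]
  · intro r hr u
    beta_reduce
    rw [dif_pos hr]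
    have h3 := ((eq u).symm ⟨r, hr⟩).2
    simp only [typ] at h3
    have h4 := congrArg Prod.snd h3
    simp only at h4
    rcases hMpm k2 ((eq u).symm ⟨r, hr⟩).1 with h | h
    · rw [h] at h4 ⊢
      simp at h4
      simp [← h4]
    · rw [h] at h4 ⊢
      simp at h4
      simp [← h4]
  · intro k k' hk hk' hne
    rw [Finset.sum_comm]
    rw [← hMo k k' hk hk' hne]
    rw [← Finset.sum_fiberwise Finset.univ typ (fun c => M k c * M k' c)]
    refine Finset.sum_congr rfl fun u _ => ?_
    rw [Finset.sum_range]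
    rw [← Finset.sum_subtype_eq_sum_filter]
    simp only [Fin.is_lt, dif_pos]
    rw [Finset.subtype_univ]
    refine (Fintype.sum_equiv (eq u).symm _ _ ?_)
    intro r
    rfl

end Pool.Agent.HD996
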