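import Pool.Agent.HD996.Slots

set_option autoImplicit false
set_option linter.unusedSimpArgs false
set_option linter.unusedSectionVars false

namespace Pool.Agent.HD996

open Finset Function

/-- positions of the `D`-slots -/
def isD (δ : ℕ) {n0 : ℕ} (p : Fin n0 × U) : Prop :=
  p.2 = (true, true) ∨ (δ ≤ p.1.val ∧ p.2 = (false, false))

instance (δ : ℕ) {n0 : ℕ} (p : Fin n0 × U) : Decidable (isD δ p) := by
  unfold isD; infer_instance

theorem card_isD (n0 δ : ℕ) (h : δ ≤ n0) :
    #(univ.filter (fun p : Fin n0 × U => isD δ p)) = 2 * n0 - δ := by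
  rw [Finset.card_filter, Fintype.sum_prod_type]
  have h1 : ∀ g : Fin n0, ∑ l : U, (if isD δ (g, l) then 1 else 0)
      = (fun g => if g < δ then 1 else 2) g.val := by
    intro g
    rw [Fintype.sum_prod_type]
    simp only [Fintype.sum_bool]
    by_cases hg : g.val < δ
    · simp [isD, hg]
    · simp [isD, hg, not_lt.mp hg]
  rw [Finset.sum_congr rfl (fun g _ => h1 g), Fin.sum_univ_eq_sum_range (fun g => if g < δ then 1 else 2) n0]
  obtain ⟨m, rfl⟩ := Nat.exists_eq_add_of_le h
  rw [Finset.sum_range_add]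
  have h2 : ∑ r ∈ range δ, (if r < δ then 1 else 2) = δ := by
    rw [Finset.sum_congr rfl (fun r hr => if_pos (mem_range.mp hr))]
    simp
  have h3 : ∑ r ∈ range m, (if δ + r < δ then 1 else 2) = m * 2 := by
    rw [Finset.sum_congr rfl (fun r _ => if_neg (by omega))]
    simp
  rw [h2, h3]
  omega

/-- the numerical parameters of the construction -/
structure Params (t M ρ x n0 δ : ℕ) (α : ℤ) (w0 w3 W2 WS : ℕ) : Prop where
  ht : t = 2 * M + 1 ∨ t = 2 * M + 3
  hM : 0 < M
  htn : t = 2 * n0 + δ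
  hδ : 0 < δ
  hδn : δ < n0
  hα : (n0 : ℤ) * α + ρ = t * t
  hρ : ρ ≤ t
  hρ2 : (t - ρ) % 2 = 0
  hx : x ≤ t
  hx2 : (t - x) % 2 = 0
  e0 : ((t : ℤ) - ρ) + 2 * (t - x) + 2 * w0 = α
  b0 : w0 ≤ M
  e3 : 1 < δ → 3 * ((t : ℤ) - x) + 2 * w3 = α
  b3 : 1 < δ → w3 ≤ M
  e2 : 2 * ((t : ℤ) - x) + 2 * W2 = α
  b2 : W2 ≤ 2 * M
  eS : t = 2 * M + 3 → 2 * (t : ℤ) + 2 * WS = α
  bS : t = 2 * M + 3 → WS ≤ 2 * M

def WW (t M n0 δ w0 w3 W2 WS g : ℕ) : ℕ :=
  if g = 0 then w0 else if g < δ then w3 else if (t = 2 * M + 3 ∧ g + 1 = n0) then WS else W2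

def wp (t M δ w0 w3 W2 WS : ℕ) {n0 : ℕ} (p : Fin n0 × U) : ℕ :=
  if p.1.val < δ then WW t M n0 δ w0 w3 W2 WS p.1.val
  else if p.2 = (true, true) then WW t M n0 δ w0 w3 W2 WS p.1.val / 2
  else WW t M n0 δ w0 w3 W2 WS p.1.val - WW t M n0 δ w0 w3 W2 WS p.1.val / 2

def szp (t M ρ x δ w0 w3 W2 WS : ℕ) {n0 : ℕ} (p : Fin n0 × U) : ℤ :=
  if isD δ p then 2 * (wp t M δ w0 w3 W2 WS p : ℤ)
  else if p.1.val = 0 ∧ p.2 = (false, false) then (t : ℤ) - ρ
  else if (t = 2 * M + 3 ∧ p.1.val + 1 = n0) then (t : ℤ) else (t : ℤ) - x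

theorem Params.wp_le {t M ρ x n0 δ : ℕ} {α : ℤ} {w0 w3 W2 WS : ℕ}
    (P : Params t M ρ x n0 δ α w0 w3 W2 WS) (p : Fin n0 × U) : wp t M δ w0 w3 W2 WS p ≤ M := by
  have hδ := P.hδ
  have b0 := P.b0
  have b3 := P.b3
  have b2 := P.b2
  have bS := P.bS
  unfold wp
  by_cases h : p.1.val < δ
  · rw [if_pos h]
    unfold WW
    by_cases h0 : p.1.val = 0
    · rw [if_pos h0]; exact b0
    · rw [if_neg h0, if_pos h]
      exact b3 (by omega)
  · rw [if_neg h]
    have : WW t M n0 δ w0 w3 W2 WS p.1.val ≤ 2 * M := by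
      unfold WW
      rw [if_neg (by omega), if_neg h]
      split_ifs with h2
      · exact bS h2.1
      · exact b2
    split_ifs <;> omega

theorem Params.tot {t M ρ x n0 δ : ℕ} {α : ℤ} {w0 w3 W2 WS : ℕ}
    (P : Params t M ρ x n0 δ α w0 w3 W2 WS) (a : Fin n0) :
    ∑ l : U, szp t M ρ x δ w0 w3 W2 WS (a, l) = α := by
  have hδ := P.hδ
  have e0 := P.e0
  have e3 := P.e3
  have e2 := P.e2
  have eS := P.eS
  rw [Fintype.sum_prod_type]
  simp only [Fintype.sum_bool]
  by_cases h : a.val < δ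
  · by_cases h0 : a.val = 0
    · have h1 : ¬ (0 + 1 = n0) := by have := P.hδn; omega
      have h2 : ¬ (δ ≤ 0) := by omega
      simp [szp, isD, wp, WW, h0, h1, h2, hδ]
      linarith
    · have h1 : ¬ (a.val + 1 = n0) := by have := P.hδn; omega
      have h2 : ¬ (δ ≤ a.val) := by omega
      have := e3 (by omega)
      simp [szp, isD, wp, WW, h0, h1, h2, h]
      linarith
  · have h0 : a.val ≠ 0 := by omega
    have h2 : δ ≤ a.val := by omega
    by_cases hs : t = 2 * M + 3 ∧ a.val + 1 = n0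
    · have h3 := eS hs.1
      simp only [szp, isD, wp, WW, h0, h2, h, hs, Prod.mk.injEq, and_self, or_self, if_true,
        if_false, Bool.true_eq_false, Bool.false_eq_true, and_false, false_and, or_false,
        true_and, true_or, or_true]
      omega
    · simp only [szp, isD, wp, WW, h0, h2, h, hs, Prod.mk.injEq, and_self, or_self, if_true,
        if_false, Bool.true_eq_false, Bool.false_eq_true, and_false, false_and, or_false,
        true_and, true_or, or_true]
      omega

theorem sum_phi (t M ρ x : ℕ) (ht : t = 2 * M + 1 ∨ t = 2 * M + 3) :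
    ∑ n ∈ range t, (if n = 0 then (t : ℤ) - ρ else if (n - 1) / 2 < M then (t : ℤ) - x else t)
      = ((t : ℤ) - ρ) + 2 * M * ((t : ℤ) - x) + (if t = 2 * M + 3 then 2 * (t : ℤ) else 0) := by
  have h1 : ∀ T : ℤ, ∑ n ∈ range (2 * M + 1), (if n = 0 then T - ρ else
      if (n - 1) / 2 < M then T - x else T) = (T - ρ) + 2 * M * (T - x) := by
    intro T
    rw [Finset.sum_range_succ']
    have : ∀ n ∈ range (2 * M), (if n + 1 = 0 then T - ρ else
      if (n + 1 - 1) / 2 < M then T - x else T) = T - x := by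
      intro n hn
      rw [mem_range] at hn
      rw [if_neg (by omega), if_pos (by omega)]
    rw [Finset.sum_congr rfl this]
    simp
    ring
  rcases ht with ht | ht
  · have : ¬ (t = 2 * M + 3) := by omega
    rw [if_neg this, ← h1 t, add_zero, ← ht]
  · rw [if_pos ht, ← h1 t]
    conv_lhs => rw [show range t = range (2 * M + 1 + 1 + 1) by rw [ht]]
    rw [Finset.sum_range_succ, Finset.sum_range_succ]
    have e1 : ¬ (2 * M + 1 = 0) := by omega
    have e2 : ¬ ((2 * M + 1 - 1) / 2 < M) := by omega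
    have e3 : ¬ (2 * M + 1 + 1 = 0) := by omega
    have e4 : ¬ ((2 * M + 1 + 1 - 1) / 2 < M) := by omega
    rw [if_neg e1, if_neg e2, if_neg e3, if_neg e4]
    ring

theorem Params.fourArr {t M ρ x n0 δ : ℕ} {α : ℤ} {w0 w3 W2 WS : ℕ} [NeZero t]
    (P : Params t M ρ x n0 δ α w0 w3 W2 WS)
    {K k1 k2 : ℕ} {c : ℕ → ℕ} {σ : ℕ → ℤ} (hT : TSD t M K k1 k2 c σ) (hP : PH K (4 * ρ))
    (hH : HadOrd n0) : ∃ Z, FourArr (ZMod t) Z := by
  classical
  obtain ⟨f, F⟩ := exists_FData hT hP P.hρ P.ht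
  obtain ⟨H0, hH0⟩ := hH
  have hδ := P.hδ
  have hδn := P.hδn
  have htn := P.htn
  have ht := P.ht
  have hM := P.hM
  -- positions
  have hn0 : 0 < n0 := by omega
  let g0 : Fin n0 := ⟨0, hn0⟩
  let gl : Fin n0 := ⟨n0 - 1, by omega⟩
  let τ := 2 * n0 - δ
  have cD : Fintype.card {p : Fin n0 × U // isD δ p} = τ := by
    rw [Fintype.card_subtype]
    exact card_isD n0 δ hδn.le
  let eD : Fin τ ≃ {p : Fin n0 × U // isD δ p} := (Fintype.equivFinOfCardEq cD).symm
  let TT : Finset (Fin n0 × U) := univ.filter (fun p => ¬ isD δ p)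
  have cT : Fintype.card (ZMod t) = #TT := by
    have h1 := Finset.card_filter_add_card_filter_not (s := (univ : Finset (Fin n0 × U)))
      (fun p => isD δ p)
    rw [card_isD n0 δ hδn.le] at h1
    have h2 : #(univ : Finset (Fin n0 × U)) = n0 * 4 := by
      rw [Finset.card_univ, Fintype.card_prod, Fintype.card_fin]
      rfl
    rw [ZMod.card]
    simp only [TT]
    omega
  let s1 : ZMod t := ((2 * M + 1 : ℕ) : ZMod t)
  let s2 : ZMod t := ((2 * M + 2 : ℕ) : ZMod t)
  let f0 : ZMod t → Fin n0 × U := fun s => if s = 0 then (g0, (false, false)) else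
    if s = s1 then (gl, (false, true)) else (gl, (true, false))
  let ss : Finset (ZMod t) := if t = 2 * M + 3 then {0, s1, s2} else {0}
  have hs10 : t = 2 * M + 3 → s1 ≠ 0 ∧ s2 ≠ 0 ∧ s1 ≠ s2 := by
    intro h
    have hv1 : s1.val = 2 * M + 1 := ZMod.val_cast_of_lt (by omega)
    have hv2 : s2.val = 2 * M + 2 := ZMod.val_cast_of_lt (by omega)
    refine ⟨?_, ?_, ?_⟩
    · intro h0
      rw [h0, ZMod.val_zero] at hv1
      omega
    · intro h0
      rw [h0, ZMod.val_zero] at hv2
      omega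
    · intro h0
      rw [h0] at hv1
      omega
  have himg : ss.image f0 ⊆ TT := by
    intro p hp
    rw [Finset.mem_image] at hp
    obtain ⟨s, _, rfl⟩ := hp
    simp only [TT, mem_filter, mem_univ, true_and, f0, isD]
    split_ifs
    · simp [g0]; omega
    · simp
    · simp
  have hinj : Set.InjOn f0 (ss : Set (ZMod t)) := by
    by_cases h : t = 2 * M + 3
    · obtain ⟨n1, n2, n3⟩ := hs10 h
      simp only [ss, h, if_true] at *
      intro a ha b hb hab
      simp only [Finset.coe_insert, Finset.coe_singleton, Set.mem_insert_iff,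
        Set.mem_singleton_iff] at ha hb
      rcases ha with rfl | rfl | rfl <;> rcases hb with rfl | rfl | rfl <;>
        first
          | rfl
          | (exfalso; simp [f0, n1, n2, n3, n1.symm, n2.symm, n3.symm] at hab)
    · simp only [ss, h, if_false]
      simp
  obtain ⟨eT, heT⟩ := Finset.exists_equiv_extend_of_card_eq cT himg hinj
  let eT' : ZMod t ≃ {p : Fin n0 × U // ¬ isD δ p} :=
    eT.trans (Equiv.subtypeEquivRight (fun p => by simp [TT]))
  have heT' : ∀ s, (eT' s).1 = (eT s).1 := fun s => rfl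
  let e : ZMod t ⊕ Fin τ ≃ Fin n0 × U :=
    (Equiv.sumComm _ _).trans ((Equiv.sumCongr eD eT').trans (Equiv.sumCompl (fun p => isD δ p)))
  have einr : ∀ j, e (Sum.inr j) = (eD j).1 := fun j => rfl
  have einl : ∀ s, e (Sum.inl s) = (eT s).1 := fun s => rfl
  have hnotD : ∀ s, ¬ isD δ (e (Sum.inl s)) := fun s => (eT' s).2
  have hisD : ∀ j, isD δ (e (Sum.inr j)) := fun j => (eD j).2
  have e0 : e (Sum.inl 0) = (g0, (false, false)) := by
    rw [einl, heT 0 (by simp only [ss]; split_ifs <;> simp)]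
    simp [f0]
  have e1 : t = 2 * M + 3 → e (Sum.inl s1) = (gl, (false, true)) := by
    intro h
    obtain ⟨n1, n2, n3⟩ := hs10 h
    rw [einl, heT s1 (by simp only [ss, h, if_true]; simp)]
    simp [f0, n1]
  have e2 : t = 2 * M + 3 → e (Sum.inl s2) = (gl, (true, false)) := by
    intro h
    obtain ⟨n1, n2, n3⟩ := hs10 h
    rw [einl, heT s2 (by simp only [ss, h, if_true]; simp)]
    simp [f0, n2, n3.symm]
  let sz : Fin n0 × U → ℤ := szp t M ρ x δ w0 w3 W2 WS
  let w : ℕ → ℕ := fun j => if h : j < τ then wp t M δ w0 w3 W2 WS (e (Sum.inr ⟨j, h⟩)) else 0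
  have hφ : ∀ s : ZMod t, sz (e (Sum.inl s)) = (fun n => if n = 0 then (t : ℤ) - ρ else
      if (n - 1) / 2 < M then (t : ℤ) - x else t) s.val := by
    intro s
    beta_reduce
    simp only [sz]
    unfold szp
    rw [if_neg (hnotD s)]
    by_cases hs0 : s = 0
    · subst hs0
      rw [e0, ZMod.val_zero, if_pos rfl, if_pos ⟨rfl, rfl⟩]
    · have hsv : s.val ≠ 0 := fun h => hs0 ((ZMod.val_eq_zero s).mp h)
      have hslt := ZMod.val_lt s
      rw [if_neg hsv]
      have hne : ¬ ((e (Sum.inl s)).1.val = 0 ∧ (e (Sum.inl s)).2 = (false, false)) := by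
        rintro ⟨h1, h2⟩
        apply hs0
        have : e (Sum.inl s) = e (Sum.inl 0) := by
          rw [e0]
          exact Prod.ext (Fin.ext h1) h2
        exact Sum.inl_injective (e.injective this)
      rw [if_neg hne]
      by_cases hk : (s.val - 1) / 2 < M
      · rw [if_pos hk, if_neg]
        rintro ⟨h1, h2⟩
        have h3 : (e (Sum.inl s)).1 = gl := Fin.ext (by simp only [gl]; omega)
        have h4 := hnotD s
        unfold isD at h4
        rw [h3] at h4
        have h5 : δ ≤ gl.val := by simp only [gl]; omega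
        have hv1 : s1.val = 2 * M + 1 := ZMod.val_cast_of_lt (by omega)
        have hv2 : s2.val = 2 * M + 2 := ZMod.val_cast_of_lt (by omega)
        rcases hp : (e (Sum.inl s)).2 with ⟨b1, b2⟩
        rw [hp] at h4
        cases b1 <;> cases b2
        · exact h4 (Or.inr ⟨h5, rfl⟩)
        · have : e (Sum.inl s) = e (Sum.inl s1) := by
            rw [e1 h1]
            exact Prod.ext h3 hp
          have := Sum.inl_injective (e.injective this)
          rw [this, hv1] at hk
          omega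
        · have : e (Sum.inl s) = e (Sum.inl s2) := by
            rw [e2 h1]
            exact Prod.ext h3 hp
          have := Sum.inl_injective (e.injective this)
          rw [this, hv2] at hk
          omega
        · exact h4 (Or.inl rfl)
      · rw [if_neg hk]
        have ht3 : t = 2 * M + 3 := by omega
        have hv1 : s1.val = 2 * M + 1 := ZMod.val_cast_of_lt (by omega)
        have hv2 : s2.val = 2 * M + 2 := ZMod.val_cast_of_lt (by omega)
        have hcase : s.val = 2 * M + 1 ∨ s.val = 2 * M + 2 := by omega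
        rcases hcase with h | h
        · have : s = s1 := ZMod.val_injective t (by rw [h, hv1])
          rw [this, e1 ht3, if_pos ⟨ht3, by simp only [gl]; omega⟩]
        · have : s = s2 := ZMod.val_injective t (by rw [h, hv2])
          rw [this, e2 ht3, if_pos ⟨ht3, by simp only [gl]; omega⟩]
  have hszD : ∀ j : Fin τ, sz (e (Sum.inr j)) = 2 * (w j.val : ℤ) := by
    intro j
    simp only [sz, w]
    unfold szp
    rw [if_pos (hisD j), dif_pos j.isLt]
  -- total count
  have hsumw : ∑ j ∈ range τ, w j = M * x := by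
    have h1 : ∑ p : Fin n0 × U, sz p = n0 * α := by
      rw [Fintype.sum_prod_type]
      rw [Finset.sum_congr rfl (fun a _ => P.tot a)]
      simp
    have h2 : ∑ p : Fin n0 × U, sz p
        = ∑ s : ZMod t, sz (e (Sum.inl s)) + ∑ j : Fin τ, sz (e (Sum.inr j)) := by
      rw [← Equiv.sum_comp e, Fintype.sum_sum_type]
    have h3 : ∑ s : ZMod t, sz (e (Sum.inl s)) = ((t : ℤ) - ρ) + 2 * M * ((t : ℤ) - x) +
        (if t = 2 * M + 3 then 2 * (t : ℤ) else 0) := by
      rw [Finset.sum_congr rfl (fun s _ => hφ s), sum_zmod t (fun n => if n = 0 then (t : ℤ) - ρ else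
        if (n - 1) / 2 < M then (t : ℤ) - x else t), sum_phi t M ρ x ht]
    have h4 : ∑ j : Fin τ, sz (e (Sum.inr j)) = 2 * ((∑ j ∈ range τ, w j : ℕ) : ℤ) := by
      rw [Finset.sum_congr rfl (fun j _ => hszD j), ← Finset.mul_sum,
        Fin.sum_univ_eq_sum_range (fun j => (w j : ℤ)) τ]
      push_cast
      rfl
    rw [h3, h4, h1] at h2
    have h5 := P.hα
    have h6 : 2 * ((∑ j ∈ range τ, w j : ℕ) : ℤ) = 2 * (M * x : ℕ) := by
      push_cast
      push_cast at h2
      rcases ht with ht | ht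
      · rw [if_neg (by omega)] at h2
        have h7 : (t : ℤ) = 2 * M + 1 := by exact_mod_cast ht
        have h8 : (t : ℤ) * t = (2 * M + 1) * t := by rw [← h7]
        linarith [mul_comm (M : ℤ) (t : ℤ)]
      · rw [if_pos ht] at h2
        have h7 : (t : ℤ) = 2 * M + 3 := by exact_mod_cast ht
        have h8 : (t : ℤ) * t = (2 * M + 3) * t := by rw [← h7]
        linarith [mul_comm (M : ℤ) (t : ℤ)]
    omega
  have hw : ∀ j < τ, w j ≤ M := by
    intro j hj
    simp only [w]
    rw [dif_pos hj]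
    exact P.wp_le _
  obtain ⟨inc, c01, cw, cx⟩ := exists_inc M x τ w hM hw hsumw
  have S : SlotData t M ρ τ x n0 e inc w sz α := {
    ht := ht
    hρ := P.hρ
    hρ2 := P.hρ2
    hx := P.hx
    hx2 := P.hx2
    hτ := by simp only [τ]; omega
    hsp := fun h => ⟨gl, e1 h, e2 h⟩
    c01 := c01
    cw := cw
    cx := cx
    szD := hszD
    sz0 := by
      rw [hφ 0]
      simp
    szT := by
      intro s hs0 hk
      have hsv : s.val ≠ 0 := fun h => hs0 ((ZMod.val_eq_zero s).mp h)
      rw [hφ s]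
      beta_reduce
      rw [if_neg hsv, if_pos hk]
    szS := by
      intro s hs0 hk
      have hsv : s.val ≠ 0 := fun h => hs0 ((ZMod.val_eq_zero s).mp h)
      rw [hφ s]
      beta_reduce
      rw [if_neg hsv, if_neg hk]
    tot := P.tot }
  obtain ⟨κ, lam, σ', D⟩ := S.design F hH0
  refine ⟨_, D.fourArr ?_⟩
  -- odd order
  intro g hg
  have h2 : (2 : ZMod t) * g = 0 := by rw [two_mul]; exact hg
  have hodd : Nat.Coprime 2 t := by
    rw [Nat.coprime_two_left, Nat.odd_iff]
    omega
  have hu : IsUnit (2 : ZMod t) := by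
    have := (ZMod.isUnit_iff_coprime 2 t).mpr hodd
    exact_mod_cast this
  exact (hu.mul_right_eq_zero).mp h2

end Pool.Agent.HD996
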