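import Pool.Agent.HD996.FData
import Pool.Agent.HD996.Had

set_option autoImplicit false
set_option linter.unusedSimpArgs false
set_option linter.unusedSectionVars false

namespace Pool.Agent.HD996

open Finset Function

section
variable {t M ρ τ : ℕ} [NeZero t]

/-- cells coloured by a `D`-slot -/
def dcol (M τ : ℕ) (c : ℕ → ℕ → ℕ) (s d : ZMod t) : Prop :=
  0 < s.val ∧ (s.val - 1) / 2 < M ∧ d.val < τ ∧ c d.val ((s.val - 1) / 2) = 1

instance (M τ : ℕ) (c : ℕ → ℕ → ℕ) (s d : ZMod t) : Decidable (dcol M τ c s d) := by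
  unfold dcol; infer_instance

def slotOf (M τ : ℕ) (c : ℕ → ℕ → ℕ) (P : ZMod t × ZMod t) : ZMod t ⊕ Fin τ :=
  if h : dcol M τ c P.1 P.2 then Sum.inr ⟨P.2.val, h.2.2.1⟩ else Sum.inl P.1

theorem slotOf_inl (c : ℕ → ℕ → ℕ) (P : ZMod t × ZMod t) (s : ZMod t) :
    slotOf M τ c P = Sum.inl s ↔ P.1 = s ∧ ¬ dcol M τ c P.1 P.2 := by
  unfold slotOf
  by_cases h : dcol M τ c P.1 P.2
  · rw [dif_pos h]
    simp [h]
  · rw [dif_neg h]
    simp [h]

theorem slotOf_inr (c : ℕ → ℕ → ℕ) (P : ZMod t × ZMod t) (j : Fin τ) :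
    slotOf M τ c P = Sum.inr j ↔ P.2.val = j.val ∧ dcol M τ c P.1 P.2 := by
  unfold slotOf
  by_cases h : dcol M τ c P.1 P.2
  · rw [dif_pos h]
    simp only [Sum.inr.injEq, Fin.ext_iff, h, and_true]
  · rw [dif_neg h]
    simp [h]

def Aset (M ρ τ : ℕ) (c : ℕ → ℕ → ℕ) (s : ZMod t) : Finset (ZMod t) :=
  univ.filter (fun d => ¬ (s = 0 ∧ d.val < ρ) ∧ ¬ dcol M τ c s d)

theorem sumT (c : ℕ → ℕ → ℕ) (s : ZMod t) (Φ : ZMod t × ZMod t → ℤ) :
    ∑ P : ZMod t × ZMod t, (if ¬ (P.1 = 0 ∧ P.2.val < ρ) ∧ slotOf M τ c P = Sum.inl s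
      then Φ P else 0) = ∑ d ∈ Aset M ρ τ c s, Φ (s, d) := by
  rw [Fintype.sum_prod_type, Finset.sum_eq_single s]
  · unfold Aset
    rw [Finset.sum_filter]
    refine Finset.sum_congr rfl fun d _ => ?_
    simp only [slotOf_inl, true_and]
  · intro s' _ hne
    refine Finset.sum_eq_zero fun d _ => ?_
    rw [if_neg]
    rintro ⟨_, h⟩
    rw [slotOf_inl] at h
    exact hne h.1
  · simp

theorem sumD (ht : t = 2 * M + 1 ∨ t = 2 * M + 3) (hτ : τ ≤ t) (c : ℕ → ℕ → ℕ) (j : Fin τ)
    (Φ : ZMod t × ZMod t → ℤ) :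
    ∑ P : ZMod t × ZMod t, (if ¬ (P.1 = 0 ∧ P.2.val < ρ) ∧ slotOf M τ c P = Sum.inr j
      then Φ P else 0)
      = ∑ k ∈ range M, (if c j.val k = 1 then
        Φ (((2 * k + 1 : ℕ) : ZMod t), ((j.val : ℕ) : ZMod t)) +
        Φ (((2 * k + 2 : ℕ) : ZMod t), ((j.val : ℕ) : ZMod t)) else 0) := by
  have hj : ((j.val : ℕ) : ZMod t).val = j.val := ZMod.val_cast_of_lt (by omega)
  rw [Fintype.sum_prod_type, Finset.sum_comm, Finset.sum_eq_single ((j.val : ℕ) : ZMod t)]
  · rw [sum_zmod']
    have h1 : ∀ x ∈ range t, (if ¬ ((((x : ℕ) : ZMod t), ((j.val : ℕ) : ZMod t)).1 = 0 ∧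
          (((x : ℕ) : ZMod t), ((j.val : ℕ) : ZMod t)).2.val < ρ) ∧
          slotOf M τ c (((x : ℕ) : ZMod t), ((j.val : ℕ) : ZMod t)) = Sum.inr j
        then Φ (((x : ℕ) : ZMod t), ((j.val : ℕ) : ZMod t)) else 0)
        = if 0 < x ∧ (x - 1) / 2 < M then (fun x : ℕ => if c j.val ((x - 1) / 2) = 1 then
            Φ (((x : ℕ) : ZMod t), ((j.val : ℕ) : ZMod t)) else 0) x else 0 := by
      intro x hx
      have hxv : ((x : ℕ) : ZMod t).val = x := ZMod.val_cast_of_lt (mem_range.mp hx)
      have hd : dcol M τ c ((x : ℕ) : ZMod t) ((j.val : ℕ) : ZMod t) ↔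
          (0 < x ∧ (x - 1) / 2 < M ∧ j.val < τ ∧ c j.val ((x - 1) / 2) = 1) := by
        unfold dcol
        rw [hxv, hj]
      simp only [slotOf_inr, hj, true_and, hd]
      by_cases h : 0 < x ∧ (x - 1) / 2 < M
      · rw [if_pos h]
        have hx0 : ((x : ℕ) : ZMod t) ≠ 0 := by
          intro h0
          have := congrArg ZMod.val h0
          rw [hxv, ZMod.val_zero] at this
          omega
        simp only [hx0, false_and, not_false_eq_true, h.1, h.2, j.isLt, true_and]
      · rw [if_neg h, if_neg]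
        rintro ⟨_, h1, h2, _⟩
        exact h ⟨h1, h2⟩
    rw [Finset.sum_congr rfl h1, sum_dom t M ht]
    refine Finset.sum_congr rfl fun k _ => ?_
    have e1 : (2 * k + 1 - 1) / 2 = k := by omega
    have e2 : (2 * k + 2 - 1) / 2 = k := by omega
    beta_reduce
    rw [e1, e2]
    split_ifs
    · rfl
    · rfl
  · intro d _ hne
    refine Finset.sum_eq_zero fun s _ => ?_
    rw [if_neg]
    rintro ⟨_, h⟩
    rw [slotOf_inr] at h
    apply hne
    apply ZMod.val_injective t
    rw [hj]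
    exact h.1
  · simp

/-- everything needed about the slots -/
structure SlotData (t M ρ τ x n0 : ℕ) [NeZero t] (e : ZMod t ⊕ Fin τ ≃ Fin n0 × U)
    (c : ℕ → ℕ → ℕ) (w : ℕ → ℕ) (sz : Fin n0 × U → ℤ) (α : ℤ) : Prop where
  ht : t = 2 * M + 1 ∨ t = 2 * M + 3
  hρ : ρ ≤ t
  hρ2 : (t - ρ) % 2 = 0
  hx : x ≤ t
  hx2 : (t - x) % 2 = 0
  hτ : τ ≤ t
  hsp : t = 2 * M + 3 → ∃ a, e (Sum.inl ((2 * M + 1 : ℕ) : ZMod t)) = (a, (false, true)) ∧
    e (Sum.inl ((2 * M + 2 : ℕ) : ZMod t)) = (a, (true, false))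
  c01 : ∀ j < τ, ∀ k, c j k = 0 ∨ c j k = 1
  cw : ∀ j < τ, ∑ k ∈ range M, c j k = w j
  cx : ∀ k < M, ∑ j ∈ range τ, c j k = x
  szD : ∀ j : Fin τ, sz (e (Sum.inr j)) = 2 * (w j.val : ℤ)
  sz0 : sz (e (Sum.inl 0)) = (t : ℤ) - ρ
  szT : ∀ s : ZMod t, s ≠ 0 → (s.val - 1) / 2 < M → sz (e (Sum.inl s)) = (t : ℤ) - x
  szS : ∀ s : ZMod t, s ≠ 0 → ¬ (s.val - 1) / 2 < M → sz (e (Sum.inl s)) = (t : ℤ)
  tot : ∀ a, ∑ l : U, sz (a, l) = α

theorem SlotData.cardA {x n0 : ℕ} {e : ZMod t ⊕ Fin τ ≃ Fin n0 × U}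
    {c : ℕ → ℕ → ℕ} {w : ℕ → ℕ} {sz : Fin n0 × U → ℤ} {α : ℤ}
    (S : SlotData t M ρ τ x n0 e c w sz α) (s : ZMod t) :
    ((#(Aset M ρ τ c s) : ℕ) : ℤ) = sz (e (Sum.inl s)) := by
  have hρ := S.hρ
  unfold Aset
  rw [Finset.card_filter]
  push_cast
  by_cases hs0 : s = 0
  · subst hs0
    rw [S.sz0]
    have h1 : ∀ d : ZMod t, (if ¬ ((0 : ZMod t) = 0 ∧ d.val < ρ) ∧ ¬ dcol M τ c 0 d
        then (1 : ℤ) else 0) = (fun r => if r < ρ then 0 else 1) d.val := by
      intro d
      have : ¬ dcol M τ c (0 : ZMod t) d := by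
        rintro ⟨h, _⟩
        rw [ZMod.val_zero] at h
        omega
      simp only [this, not_false_eq_true, and_true, true_and]
      split_ifs
      · rfl
      · rfl
    rw [Finset.sum_congr rfl (fun d _ => h1 d), sum_zmod t (fun r => if r < ρ then 0 else 1)]
    obtain ⟨m, rfl⟩ := Nat.exists_eq_add_of_le hρ
    rw [Finset.sum_range_add]
    have h2 : ∑ r ∈ range ρ, (if r < ρ then (0 : ℤ) else 1) = 0 :=
      Finset.sum_eq_zero fun r hr => by rw [if_pos (mem_range.mp hr)]
    have h3 : ∑ r ∈ range m, (if ρ + r < ρ then (0 : ℤ) else 1) = m := by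
      rw [Finset.sum_congr rfl (fun r _ => if_neg (by omega))]
      simp
    rw [h2, h3]
    push_cast
    ring
  · have hsv : 0 < s.val := by
      rcases Nat.eq_zero_or_pos s.val with h | h
      · exact absurd ((ZMod.val_eq_zero s).mp h) hs0
      · exact h
    have h1 : ∀ d : ZMod t, (if ¬ (s = 0 ∧ d.val < ρ) ∧ ¬ dcol M τ c s d
        then (1 : ℤ) else 0) = 1 - (if dcol M τ c s d then (1 : ℤ) else 0) := by
      intro d
      by_cases h : dcol M τ c s d
      · simp [h]
      · simp [h, hs0]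
    rw [Finset.sum_congr rfl (fun d _ => h1 d), Finset.sum_sub_distrib]
    by_cases hk : (s.val - 1) / 2 < M
    · rw [S.szT s hs0 hk]
      have h2 : ∀ d : ZMod t, (if dcol M τ c s d then (1 : ℤ) else 0)
          = (fun r => if r < τ then (c r ((s.val - 1) / 2) : ℤ) else 0) d.val := by
        intro d
        unfold dcol
        beta_reduce
        by_cases h : d.val < τ
        · rcases S.c01 d.val h ((s.val - 1) / 2) with h' | h'
          · simp [hsv, hk, h, h']
          · simp [hsv, hk, h, h']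
        · simp [h]
      rw [Finset.sum_congr rfl (fun d _ => h2 d),
        sum_zmod t (fun r => if r < τ then (c r ((s.val - 1) / 2) : ℤ) else 0)]
      have h3 : ∑ r ∈ range t, (if r < τ then (c r ((s.val - 1) / 2) : ℤ) else 0)
          = ∑ r ∈ range τ, (c r ((s.val - 1) / 2) : ℤ) := by
        symm
        refine Eq.trans ?_ (Finset.sum_subset (Finset.range_mono S.hτ) ?_)
        · refine Finset.sum_congr rfl fun r hr => ?_
          rw [if_pos (mem_range.mp hr)]
        · intro r _ hr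
          rw [if_neg (fun h => hr (mem_range.mpr h))]
      rw [h3]
      have h4 := S.cx _ hk
      have h5 : ∑ r ∈ range τ, (c r ((s.val - 1) / 2) : ℤ) = x := by exact_mod_cast h4
      rw [h5]
      simp [ZMod.card]
    · rw [S.szS s hs0 hk]
      have h2 : ∀ d : ZMod t, (if dcol M τ c s d then (1 : ℤ) else 0) = 0 := by
        intro d
        rw [if_neg]
        rintro ⟨_, h, _⟩
        exact hk h
      rw [Finset.sum_congr rfl (fun d _ => h2 d)]
      simp [ZMod.card]

theorem SlotData.split {n0 : ℕ} (e : ZMod t ⊕ Fin τ ≃ Fin n0 × U)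
    (c : ℕ → ℕ → ℕ) (a : Fin n0) (Ψ : ZMod t × ZMod t → U → ℤ) :
    ∑ P : ZMod t × ZMod t, (if ¬ (P.1 = 0 ∧ P.2.val < ρ) ∧ (e (slotOf M τ c P)).1 = a
      then Ψ P (e (slotOf M τ c P)).2 else 0)
      = ∑ l : U, ∑ P : ZMod t × ZMod t,
        (if ¬ (P.1 = 0 ∧ P.2.val < ρ) ∧ slotOf M τ c P = e.symm (a, l) then Ψ P l else 0) := by
  rw [Finset.sum_comm]
  refine Finset.sum_congr rfl fun P _ => ?_
  have h1 : ∀ l : U, (slotOf M τ c P = e.symm (a, l)) =
      ((e (slotOf M τ c P)).1 = a ∧ (e (slotOf M τ c P)).2 = l) := by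
    intro l
    rw [Equiv.eq_symm_apply, Prod.ext_iff]
  simp only [h1]
  by_cases h : ¬ (P.1 = 0 ∧ P.2.val < ρ) ∧ (e (slotOf M τ c P)).1 = a
  · rw [if_pos h, Finset.sum_eq_single (e (slotOf M τ c P)).2]
    · rw [if_pos ⟨h.1, h.2, rfl⟩]
    · intro l _ hne
      rw [if_neg]
      rintro ⟨_, _, h'⟩
      exact hne h'.symm
    · simp
  · rw [if_neg h]
    symm
    refine Finset.sum_eq_zero fun l _ => ?_
    rw [if_neg]
    rintro ⟨h1, h2, _⟩
    exact h ⟨h1, h2⟩

theorem SlotData.design {x n0 : ℕ} {e : ZMod t ⊕ Fin τ ≃ Fin n0 × U}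
    {c : ℕ → ℕ → ℕ} {w : ℕ → ℕ} {sz : Fin n0 × U → ℤ} {α : ℤ}
    (S : SlotData t M ρ τ x n0 e c w sz α) {f : ZMod t → U → ZMod t → ℤ} {σ : ℕ → ℤ}
    (F : FData t M ρ f σ) {H0 : Fin n0 → Fin n0 → ℤ} (hH : HdT (Fin n0) H0) :
    ∃ κ lam σ', Design (ZMod t) (Fin n0) H0 (fun d => d.val < ρ) f κ lam σ' α := by
  classical
  choose sg hsg1 hsg2 using fun s : ZMod t => exists_signs (Aset M ρ τ c s)
  let σ' : ZMod t × ZMod t → ℤ := fun P =>
    if dcol M τ c P.1 P.2 then σ P.1.val * (if P.1.val % 2 = 1 then 1 else -1)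
    else (if P.1.val = 2 * M + 2 then - sg P.1 P.2 else sg P.1 P.2)
  have ht := S.ht
  -- sums over the `T`-slots
  have hTsum : ∀ s : ZMod t, ∑ d ∈ Aset M ρ τ c s, σ' (s, d)
      = if s.val = 2 * M + 1 then 1 else if s.val = 2 * M + 2 then -1 else 0 := by
    intro s
    have h1 : ∀ d ∈ Aset M ρ τ c s, σ' (s, d) = (if s.val = 2 * M + 2 then -1 else 1) * sg s d := by
      intro d hd
      unfold Aset at hd
      rw [mem_filter] at hd
      simp only [σ']
      rw [if_neg hd.2.2]
      split_ifs <;> ring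
    rw [Finset.sum_congr rfl h1, ← Finset.mul_sum, hsg2 s]
    have hc := S.cardA s
    have hsv := ZMod.val_lt s
    have hρ := S.hρ
    have hρ2 := S.hρ2
    have hx := S.hx
    have hx2 := S.hx2
    by_cases hs0 : s = 0
    · subst hs0
      rw [S.sz0] at hc
      have h2 : #(Aset M ρ τ c (0 : ZMod t)) % 2 = 0 := by omega
      rw [if_pos h2, ZMod.val_zero, if_neg (show ¬ (0 = 2 * M + 1) by omega),
        if_neg (show ¬ (0 = 2 * M + 2) by omega), if_neg (show ¬ (0 = 2 * M + 2) by omega)]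
      norm_num
    · by_cases hk : (s.val - 1) / 2 < M
      · rw [S.szT s hs0 hk] at hc
        have h2 : #(Aset M ρ τ c s) % 2 = 0 := by omega
        rw [if_pos h2, if_neg (show ¬ (s.val = 2 * M + 1) by omega),
          if_neg (show ¬ (s.val = 2 * M + 2) by omega),
          if_neg (show ¬ (s.val = 2 * M + 2) by omega)]
        norm_num
      · rw [S.szS s hs0 hk] at hc
        have h2 : ¬ #(Aset M ρ τ c s) % 2 = 0 := by omega
        have hsv0 : s.val ≠ 0 := fun h => hs0 ((ZMod.val_eq_zero s).mp h)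
        rw [if_neg h2]
        by_cases h3 : s.val = 2 * M + 1
        · rw [if_pos h3, if_neg (by omega)]
          norm_num
        · rw [if_neg h3, if_pos (by omega), if_pos (by omega)]
          norm_num
  refine ⟨fun P => (e (slotOf M τ c P)).1, fun P => (e (slotOf M τ c P)).2, σ', ?_⟩
  refine { f_pm := F.f_pm, s_pm := ?_, h_pm := hH.pm, row := hH.row, col := hH.col,
           f0 := F.f0, paf := F.paf, slot := ?_, unif := ?_, bal := ?_ }
  · intro P
    simp only [σ']
    rcases F.s_pm P.1.val with h | h <;> rcases hsg1 P.1 P.2 with h' | h' <;> rw [h, h'] <;>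
      split_ifs <;> simp
  · intro P Q _ _ h1 h2
    have h3 : slotOf M τ c P = slotOf M τ c Q := e.injective (Prod.ext h1 h2)
    rcases hq : slotOf M τ c Q with s | j
    · rw [hq] at h3
      rw [slotOf_inl] at h3 hq
      exact Or.inl (h3.1.trans hq.1.symm)
    · rw [hq] at h3
      rw [slotOf_inr] at h3 hq
      exact Or.inr (ZMod.val_injective t (h3.1.trans hq.1.symm))
  · intro a
    have h1 := SlotData.split (t := t) (M := M) (ρ := ρ) e c a (fun _ _ => (1 : ℤ))
    rw [h1, ← S.tot a]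
    refine Finset.sum_congr rfl fun l _ => ?_
    rcases hq : e.symm (a, l) with s | j
    · rw [sumT, Finset.sum_const, nsmul_eq_mul, mul_one, S.cardA s, ← hq, Equiv.apply_symm_apply]
    · rw [sumD ht S.hτ]
      have h2 : sz (a, l) = 2 * (w j.val : ℤ) := by
        rw [← S.szD j, ← hq, Equiv.apply_symm_apply]
      rw [h2, ← S.cw j.val j.isLt]
      push_cast
      rw [Finset.mul_sum]
      refine Finset.sum_congr rfl fun k _ => ?_
      rcases S.c01 j.val j.isLt k with h | h
      · rw [h]; norm_num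
      · rw [h]; norm_num
  · intro d0 hd0 u a
    have h1 := SlotData.split (t := t) (M := M) (ρ := ρ) e c a
      (fun P l => σ' P * chi u l * f d0 u P.1)
    rw [h1]
    -- value on every position
    have hB : ∀ l : U, ∑ P : ZMod t × ZMod t,
        (if ¬ (P.1 = 0 ∧ P.2.val < ρ) ∧ slotOf M τ c P = e.symm (a, l)
          then σ' P * chi u l * f d0 u P.1 else 0)
        = Sum.elim (fun s : ZMod t => (if s.val = 2 * M + 1 then 1 else
            if s.val = 2 * M + 2 then -1 else 0) * (chi u l * f d0 u s)) (fun _ => 0)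
            (e.symm (a, l)) := by
      intro l
      rcases hq : e.symm (a, l) with s | j
      · rw [sumT, Sum.elim_inl, ← hTsum s, Finset.sum_mul]
        refine Finset.sum_congr rfl fun d _ => ?_
        ring
      · rw [sumD ht S.hτ, Sum.elim_inr]
        refine Finset.sum_eq_zero fun k hk => ?_
        rw [mem_range] at hk
        split_ifs with hc
        · have hj : ((j.val : ℕ) : ZMod t).val = j.val :=
            ZMod.val_cast_of_lt (lt_of_lt_of_le j.isLt S.hτ)
          have hv1 : ((2 * k + 1 : ℕ) : ZMod t).val = 2 * k + 1 :=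
            ZMod.val_cast_of_lt (by omega)
          have hv2 : ((2 * k + 2 : ℕ) : ZMod t).val = 2 * k + 2 :=
            ZMod.val_cast_of_lt (by omega)
          have d1 : dcol M τ c ((2 * k + 1 : ℕ) : ZMod t) ((j.val : ℕ) : ZMod t) := by
            unfold dcol
            rw [hv1, hj]
            have : (2 * k + 1 - 1) / 2 = k := by omega
            rw [this]
            exact ⟨by omega, hk, j.isLt, hc⟩
          have d2 : dcol M τ c ((2 * k + 2 : ℕ) : ZMod t) ((j.val : ℕ) : ZMod t) := by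
            unfold dcol
            rw [hv2, hj]
            have : (2 * k + 2 - 1) / 2 = k := by omega
            rw [this]
            exact ⟨by omega, hk, j.isLt, hc⟩
          have s1 : σ' (((2 * k + 1 : ℕ) : ZMod t), ((j.val : ℕ) : ZMod t)) = σ (2 * k + 1) := by
            simp only [σ']
            rw [if_pos d1, hv1, if_pos (by omega), mul_one]
          have s2 : σ' (((2 * k + 2 : ℕ) : ZMod t), ((j.val : ℕ) : ZMod t)) = - σ (2 * k + 2) := by
            simp only [σ']
            rw [if_pos d2, hv2, if_neg (by omega)]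
            ring
          rw [s1, s2]
          have h3 := F.dom d0 hd0 u k hk
          linear_combination (chi u l) * h3
        · rfl
    rw [Finset.sum_congr rfl (fun l _ => hB l)]
    rcases ht with ht | ht
    · refine Finset.sum_eq_zero fun l _ => ?_
      rcases e.symm (a, l) with s | j
      · have hsv := ZMod.val_lt s
        rw [Sum.elim_inl, if_neg (by omega), if_neg (by omega), zero_mul]
      · rfl
    · obtain ⟨a0, e1, e2⟩ := S.hsp ht
      have hv1 : ((2 * M + 1 : ℕ) : ZMod t).val = 2 * M + 1 := ZMod.val_cast_of_lt (by omega)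
      have hv2 : ((2 * M + 2 : ℕ) : ZMod t).val = 2 * M + 2 := ZMod.val_cast_of_lt (by omega)
      have hzero : ∀ l : U, (a, l) ≠ (a0, ((false, true) : U)) → (a, l) ≠ (a0, ((true, false) : U)) →
          Sum.elim (fun s : ZMod t => (if s.val = 2 * M + 1 then 1 else
            if s.val = 2 * M + 2 then -1 else 0) * (chi u l * f d0 u s)) (fun _ => (0 : ℤ))
            (e.symm (a, l)) = 0 := by
        intro l n1 n2
        rcases hq : e.symm (a, l) with s | j
        · rw [Sum.elim_inl]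
          have m1 : s.val ≠ 2 * M + 1 := by
            intro h
            apply n1
            rw [← e1]
            have h5 : s = ((2 * M + 1 : ℕ) : ZMod t) :=
              ZMod.val_injective t (by rw [h, hv1])
            rw [← h5, ← hq, Equiv.apply_symm_apply]
          have m2 : s.val ≠ 2 * M + 2 := by
            intro h
            apply n2
            rw [← e2]
            have h5 : s = ((2 * M + 2 : ℕ) : ZMod t) :=
              ZMod.val_injective t (by rw [h, hv2])
            rw [← h5, ← hq, Equiv.apply_symm_apply]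
          rw [if_neg m1, if_neg m2, zero_mul]
        · rfl
      by_cases ha : a = a0
      · subst ha
        have g1 : e.symm (a, ((false, true) : U)) = Sum.inl ((2 * M + 1 : ℕ) : ZMod t) := by
          rw [← e1, Equiv.symm_apply_apply]
        have g2 : e.symm (a, ((true, false) : U)) = Sum.inl ((2 * M + 2 : ℕ) : ZMod t) := by
          rw [← e2, Equiv.symm_apply_apply]
        have z1 := hzero (false, false) (by simp) (by simp)
        have z2 := hzero (true, true) (by simp) (by simp)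
        rw [Fintype.sum_prod_type]
        simp only [Fintype.sum_bool]
        rw [z1, z2, g1, g2, Sum.elim_inl, Sum.elim_inl, if_pos hv1, hv2,
          if_neg (by omega), if_pos rfl]
        obtain ⟨f1, f2⟩ := F.sp ht d0 hd0 u
        rw [f1, f2]
        rcases u with ⟨u1, u2⟩
        cases u1 <;> cases u2 <;> simp [chi]
      · refine Finset.sum_eq_zero fun l _ => hzero l ?_ ?_
        · intro h; exact ha (congrArg Prod.fst h)
        · intro h; exact ha (congrArg Prod.fst h)

end

end Pool.Agent.HD996
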