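import Mathlib

set_option autoImplicit false
set_option linter.unusedSimpArgs false

namespace Pool.Agent.HD996

open Finset Function

/-- coloured aperiodic correlation -/
def corr (c : ℕ → ℕ) (σ : ℕ → ℤ) (L r : ℕ) : ℤ :=
  ∑ x ∈ range L, ∑ y ∈ range L, if y = x + r ∧ c x = c y then σ x * σ y else 0

/-- aperiodic correlation of a single sequence -/
def gc (A : ℕ → ℤ) (g r : ℕ) : ℤ :=
  ∑ x ∈ range g, ∑ y ∈ range g, if y = x + r then A x * A y else 0

/-- Golay pair of length `g` -/
structure GP (g : ℕ) (A B : ℕ → ℤ) : Prop where
  pmA : ∀ x, A x = 1 ∨ A x = -1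
  pmB : ∀ x, B x = 1 ∨ B x = -1
  corr : ∀ r, 0 < r → gc A g r + gc B g r = 0

theorem GP.one : GP 1 (fun _ => 1) (fun _ => 1) where
  pmA := fun _ => Or.inl rfl
  pmB := fun _ => Or.inl rfl
  corr := by
    intro r hr
    unfold gc
    simp only [range_one, sum_singleton]
    rw [if_neg (by omega)]
    rfl

theorem gc_glue (A B : ℕ → ℤ) (g r : ℕ) :
    gc (fun x => if x < g then A x else B (x - g)) (g + g) r
      + gc (fun x => if x < g then A x else - B (x - g)) (g + g) r
      = 2 * (gc A g r + gc B g r) := by
  unfold gc
  simp only [sum_range_add]
  rw [mul_add, Finset.mul_sum, Finset.mul_sum]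
  have h1 : ∀ x ∈ range g, ∀ y ∈ range g, True := fun _ _ _ _ => trivial
  have hA : ∀ x ∈ range g, (x < g) = True := fun x hx => by simpa using hx
  have hg : ∀ x : ℕ, (g + x < g) = False := fun x => by simp
  have hs : ∀ x : ℕ, g + x - g = x := fun x => by omega
  simp only [hg, hs, if_false]
  have e1 : ∀ x ∈ range g, (2 : ℤ) * ∑ y ∈ range g, (if y = x + r then A x * A y else 0)
      = ((∑ y ∈ range g, if y = x + r then (if x < g then A x else B (x - g)) *
            (if y < g then A y else B (y - g)) else 0) +
          ∑ y ∈ range g, if g + y = x + r then (if x < g then A x else B (x - g)) * B y else 0) +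
        ((∑ y ∈ range g, if y = x + r then (if x < g then A x else - B (x - g)) *
            (if y < g then A y else - B (y - g)) else 0) +
          ∑ y ∈ range g, if g + y = x + r then (if x < g then A x else - B (x - g)) * - B y
            else 0) := by
    intro x hx
    rw [Finset.mul_sum, ← Finset.sum_add_distrib, ← Finset.sum_add_distrib,
      ← Finset.sum_add_distrib]
    refine Finset.sum_congr rfl fun y hy => ?_
    rw [mem_range] at hx hy
    simp only [hx, hy, if_true]
    split_ifs <;> ring
  have e2 : ∀ x ∈ range g, (2 : ℤ) * ∑ y ∈ range g, (if y = x + r then B x * B y else 0)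
      = ((∑ y ∈ range g, if y = g + x + r then B x * (if y < g then A y else B (y - g)) else 0) +
          ∑ y ∈ range g, if g + y = g + x + r then B x * B y else 0) +
        ((∑ y ∈ range g, if y = g + x + r then - B x * (if y < g then A y else - B (y - g)) else 0)
          + ∑ y ∈ range g, if g + y = g + x + r then - B x * - B y else 0) := by
    intro x hx
    rw [Finset.mul_sum, ← Finset.sum_add_distrib, ← Finset.sum_add_distrib,
      ← Finset.sum_add_distrib]
    refine Finset.sum_congr rfl fun y hy => ?_
    rw [mem_range] at hx hy
    have h3 : (y = g + x + r) = False := by simp; omega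
    have h4 : (g + y = g + x + r) = (y = x + r) := by
      apply propext; constructor <;> intro h <;> omega
    simp only [h3, h4, if_false]
    split_ifs <;> ring
  rw [Finset.sum_congr rfl e1, Finset.sum_congr rfl e2]
  simp only [Finset.sum_add_distrib]
  ring

theorem GP.double {g : ℕ} {A B : ℕ → ℤ} (h : GP g A B) :
    GP (g + g) (fun x => if x < g then A x else B (x - g))
      (fun x => if x < g then A x else - B (x - g)) where
  pmA := by
    intro x
    split_ifs
    · exact h.pmA _
    · exact h.pmB _
  pmB := by
    intro x
    split_ifs
    · exact h.pmA _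
    · rcases h.pmB (x - g) with h | h <;> simp [h]
  corr := by
    intro r hr
    rw [gc_glue, h.corr r hr]
    rfl

theorem exists_GP (a : ℕ) : ∃ A B, GP (2 ^ a) A B := by
  induction a with
  | zero => exact ⟨_, _, GP.one⟩
  | succ a ih =>
    obtain ⟨A, B, h⟩ := ih
    have h2 := h.double
    rw [← mul_two, ← pow_succ] at h2
    exact ⟨_, _, h2⟩

/-- coloured sequence with vanishing aperiodic correlations, cut into dominoes -/
structure TS (L K : ℕ) (c : ℕ → ℕ) (σ : ℕ → ℤ) : Prop where
  pm : ∀ x, σ x = 1 ∨ σ x = -1
  lt : ∀ x < L, c x < K
  zero : c 0 = 0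
  s0 : σ 0 = 1
  pos : ∀ x, 0 < x → x < L → 0 < c x
  corr : ∀ r, 0 < r → corr c σ L r = 0

theorem TS.one : TS 1 1 (fun _ => 0) (fun _ => 1) where
  pm := fun _ => Or.inl rfl
  lt := fun _ _ => Nat.one_pos
  zero := rfl
  s0 := rfl
  pos := fun x h h' => by omega
  corr := by
    intro r hr
    unfold HD996.corr
    simp only [range_one, sum_singleton]
    rw [if_neg (by omega)]

theorem corr_glue (c : ℕ → ℕ) (σ A B : ℕ → ℤ) (L g K r : ℕ) (hlt : ∀ x < L, c x < K) :
    corr (fun x => if x < L then c x else if x < L + g then K else K + 1)
      (fun x => if x < L then σ x else if x < L + g then A (x - L) else B (x - (L + g)))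
      (L + g + g) r = corr c σ L r + gc A g r + gc B g r := by
  unfold corr gc
  simp only [sum_range_add]
  have hx2 : ∀ x : ℕ, (L + x < L) = False := fun x => by simp
  have hx3 : ∀ x : ℕ, (L + g + x < L) = False := fun x => by simp; omega
  have hx4 : ∀ x : ℕ, (L + g + x < L + g) = False := fun x => by simp
  have hs2 : ∀ x : ℕ, L + x - L = x := fun x => by omega
  have hs3 : ∀ x : ℕ, L + g + x - (L + g) = x := fun x => by omega
  simp only [hx2, hx3, hx4, hs2, hs3, if_false]
  congr 1
  · congr 1
    · refine Finset.sum_congr rfl fun x hx => ?_
      rw [mem_range] at hx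
      have z2 : ∑ y ∈ range g, (if L + y = x + r ∧ (if x < L then c x else
            if x < L + g then K else K + 1) = (if L + y < L + g then K else K + 1) then
            (if x < L then σ x else if x < L + g then A (x - L) else B (x - (L + g))) *
            (if L + y < L + g then A y else B (L + y - (L + g))) else 0) = 0 := by
        refine Finset.sum_eq_zero fun y hy => ?_
        rw [mem_range] at hy
        have h1 : L + y < L + g := by omega
        rw [if_neg]
        rintro ⟨_, h2⟩
        rw [if_pos hx, if_pos h1] at h2
        have := hlt x hx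
        omega
      have z3 : ∑ y ∈ range g, (if L + g + y = x + r ∧ (if x < L then c x else
            if x < L + g then K else K + 1) = K + 1 then
            (if x < L then σ x else if x < L + g then A (x - L) else B (x - (L + g))) *
            B y else 0) = 0 := by
        refine Finset.sum_eq_zero fun y hy => ?_
        rw [if_neg]
        rintro ⟨_, h2⟩
        rw [if_pos hx] at h2
        have := hlt x hx
        omega
      rw [z2, z3, add_zero, add_zero]
      refine Finset.sum_congr rfl fun y hy => ?_
      rw [mem_range] at hy
      simp only [hx, hy, if_true]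
    · refine Finset.sum_congr rfl fun x hx => ?_
      rw [mem_range] at hx
      have h1 : L + x < L + g := by omega
      simp only [h1, if_true]
      have z1 : ∑ y ∈ range L, (if y = L + x + r ∧ K = (if y < L then c y else
            if y < L + g then K else K + 1) then
            A x * (if y < L then σ y else if y < L + g then A (y - L) else B (y - (L + g)))
             else 0) = 0 := by
        refine Finset.sum_eq_zero fun y hy => ?_
        rw [mem_range] at hy
        rw [if_neg]
        rintro ⟨h2, _⟩
        omega
      have z3 : ∑ y ∈ range g, (if L + g + y = L + x + r ∧ K = K + 1 then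
            A x * B y else 0) = 0 := by
        refine Finset.sum_eq_zero fun y hy => ?_
        rw [if_neg]
        rintro ⟨_, h2⟩
        omega
      rw [z1, z3, add_zero, zero_add]
      refine Finset.sum_congr rfl fun y hy => ?_
      rw [mem_range] at hy
      have h3 : L + y < L + g := by omega
      simp only [h3, if_true]
      by_cases h : y = x + r
      · rw [if_pos h, if_pos ⟨by omega, trivial⟩]
      · rw [if_neg h, if_neg (by rintro ⟨h', _⟩; omega)]
  · refine Finset.sum_congr rfl fun x hx => ?_
    rw [mem_range] at hx
    have z1 : ∑ y ∈ range L, (if y = L + g + x + r ∧ K + 1 = (if y < L then c y else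
          if y < L + g then K else K + 1) then
          B x * (if y < L then σ y else if y < L + g then A (y - L) else B (y - (L + g)))
           else 0) = 0 := by
      refine Finset.sum_eq_zero fun y hy => ?_
      rw [mem_range] at hy
      rw [if_neg]
      rintro ⟨h2, _⟩
      omega
    have z2 : ∑ y ∈ range g, (if L + y = L + g + x + r ∧
          K + 1 = (if L + y < L + g then K else K + 1) then
          B x * (if L + y < L + g then A y else B (L + y - (L + g))) else 0) = 0 := by
      refine Finset.sum_eq_zero fun y hy => ?_
      rw [mem_range] at hy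
      rw [if_neg]
      rintro ⟨h2, _⟩
      omega
    rw [z1, z2, zero_add, zero_add]
    refine Finset.sum_congr rfl fun y hy => ?_
    by_cases h : y = x + r
    · rw [if_pos h, if_pos ⟨by omega, trivial⟩]
    · rw [if_neg h, if_neg (by rintro ⟨h', _⟩; omega)]

theorem TS.append {L K g : ℕ} {c : ℕ → ℕ} {σ A B : ℕ → ℤ} (h : TS L K c σ) (hg : GP g A B)
    (hL : 0 < L) (hK : 0 < K) :
    TS (L + g + g) (K + 2) (fun x => if x < L then c x else if x < L + g then K else K + 1)
      (fun x => if x < L then σ x else if x < L + g then A (x - L) else B (x - (L + g))) where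
  pm := by
    intro x
    split_ifs
    · exact h.pm _
    · exact hg.pmA _
    · exact hg.pmB _
  lt := by
    intro x hx
    split_ifs with h1 h2
    · have := h.lt x h1
      omega
    · omega
    · omega
  zero := by
    rw [if_pos hL]
    exact h.zero
  s0 := by
    rw [if_pos hL]
    exact h.s0
  pos := by
    intro x hx hx'
    split_ifs with h1 h2
    · exact h.pos x hx h1
    · omega
    · omega
  corr := by
    intro r hr
    rw [corr_glue c σ A B L g K r h.lt, h.corr r hr]
    have := hg.corr r hr
    linarith

end Pool.Agent.HD996
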