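import Pool.Agent.HD996.TSeq

set_option autoImplicit false
set_option linter.unusedSimpArgs false

namespace Pool.Agent.HD996

open Finset Function

def pcF : ℕ → ℕ → ℕ
  | 0, _ => 0
  | (n + 1), m => if m = 0 then 0 else pcF n (m - 2 ^ Nat.log2 m) + 1

/-- number of binary digits equal to one -/
def pc (m : ℕ) : ℕ := pcF m m

theorem log2_spec {m : ℕ} (h : m ≠ 0) : 2 ^ Nat.log2 m ≤ m ∧ m < 2 ^ (Nat.log2 m + 1) :=
  ⟨Nat.log2_self_le h, Nat.lt_log2_self⟩

theorem pcF_succ : ∀ n m : ℕ, m ≤ n → pcF (n + 1) m = pcF n m := by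
  intro n
  induction n with
  | zero =>
    intro m hm
    obtain rfl : m = 0 := by omega
    simp [pcF]
  | succ n ih =>
    intro m hm
    rw [pcF]
    conv_rhs => rw [pcF]
    split_ifs with h
    · rfl
    · have h1 := (log2_spec h).1
      have h2 : 0 < 2 ^ Nat.log2 m := Nat.pos_of_ne_zero (by positivity)
      rw [ih _ (by omega)]

theorem pcF_eq (n m : ℕ) (h : m ≤ n) : pcF n m = pc m := by
  induction n, h using Nat.le_induction with
  | base => rfl
  | succ n hn ih => rw [pcF_succ n m hn, ih]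

theorem pc_rec {m : ℕ} (h : m ≠ 0) : pc m = pc (m - 2 ^ Nat.log2 m) + 1 := by
  have h1 := (log2_spec h).1
  have h2 : 0 < 2 ^ Nat.log2 m := Nat.pos_of_ne_zero (by positivity)
  obtain ⟨n, rfl⟩ : ∃ n, m = n + 1 := ⟨m - 1, by omega⟩
  unfold pc
  rw [pcF, if_neg h, pcF_eq n _ (by omega)]
  rfl

theorem log2_add {m a : ℕ} (h : m < 2 ^ a) : Nat.log2 (2 ^ a + m) = a := by
  have hne : 2 ^ a + m ≠ 0 := by positivity
  rw [Nat.log2_eq_iff hne]
  constructor
  · omega
  · rw [pow_succ]; omega

theorem pc_add {m a : ℕ} (h : m < 2 ^ a) : pc (2 ^ a + m) = pc m + 1 := by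
  rw [pc_rec (by positivity), log2_add h, Nat.add_sub_cancel_left]

theorem two_pow_pc_le (m : ℕ) : 2 ^ pc m ≤ m + 1 := by
  induction m using Nat.strong_induction_on with
  | _ m ih =>
    by_cases h : m = 0
    · subst h; simp [pc, pcF]
    · have h1 := log2_spec h
      have h2 : 0 < 2 ^ Nat.log2 m := Nat.pos_of_ne_zero (by positivity)
      have h3 := ih (m - 2 ^ Nat.log2 m) (by omega)
      rw [pc_rec h, pow_succ]
      rw [pow_succ] at h1
      omega

theorem exists_TS (M : ℕ) (hM : M % 2 = 0) : ∃ c σ, TS (2 * M + 1) (2 * pc M + 1) c σ ∧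
    ∀ k < M, c (2 * k + 1) = c (2 * k + 2) := by
  induction M using Nat.strong_induction_on with
  | _ M ih =>
    by_cases h : M = 0
    · subst h
      exact ⟨_, _, TS.one, fun k hk => by omega⟩
    · have h1 := log2_spec h
      have h2 : 0 < 2 ^ Nat.log2 M := Nat.pos_of_ne_zero (by positivity)
      have hge : 1 ≤ Nat.log2 M := by
        by_contra hlt
        have : Nat.log2 M = 0 := by omega
        rw [this] at h1
        omega
      obtain ⟨b, hb⟩ : ∃ b, 2 ^ Nat.log2 M = 2 * b := by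
        refine ⟨2 ^ (Nat.log2 M - 1), ?_⟩
        rw [← pow_succ']
        congr 1
        omega
      obtain ⟨c, σ, hT, hd⟩ := ih (M - 2 ^ Nat.log2 M) (by omega) (by omega)
      obtain ⟨A, B, hG⟩ := exists_GP (Nat.log2 M)
      have hA := hT.append hG (by omega) (by omega)
      have e1 : 2 * (M - 2 ^ Nat.log2 M) + 1 + 2 ^ Nat.log2 M + 2 ^ Nat.log2 M = 2 * M + 1 := by
        omega
      have e2 : 2 * pc (M - 2 ^ Nat.log2 M) + 1 + 2 = 2 * pc M + 1 := by
        rw [pc_rec h]; ring
      rw [e1, e2] at hA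
      refine ⟨_, _, hA, ?_⟩
      intro k hk
      by_cases h3 : k < M - 2 ^ Nat.log2 M
      · rw [if_pos (by omega), if_pos (by omega)]
        exact hd k h3
      · have a1 : ¬ (2 * k + 1 < 2 * (M - 2 ^ Nat.log2 M) + 1) := by omega
        have a2 : ¬ (2 * k + 2 < 2 * (M - 2 ^ Nat.log2 M) + 1) := by omega
        by_cases h4 : 2 * k + 1 < 2 * (M - 2 ^ Nat.log2 M) + 1 + 2 ^ Nat.log2 M
        · have h5 : 2 * k + 2 < 2 * (M - 2 ^ Nat.log2 M) + 1 + 2 ^ Nat.log2 M := by omega
          simp only [if_neg a1, if_neg a2, if_pos h4, if_pos h5]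
        · have h5 : ¬ 2 * k + 2 < 2 * (M - 2 ^ Nat.log2 M) + 1 + 2 ^ Nat.log2 M := by omega
          simp only [if_neg a1, if_neg a2, if_neg h4, if_neg h5]

/-- the sequences used in the construction: `t = 2M+1` or `t = 2M+3` -/
structure TSD (t M K k1 k2 : ℕ) (c : ℕ → ℕ) (σ : ℕ → ℤ) : Prop extends TS t K c σ where
  dom : ∀ k < M, c (2 * k + 1) = c (2 * k + 2)
  h1 : 0 < k1
  h2 : 0 < k2
  h12 : k1 ≠ k2
  h1K : k1 < K
  h2K : k2 < K
  sp : t = 2 * M + 3 → c (2 * M + 1) = k1 ∧ c (2 * M + 2) = k2 ∧ σ (2 * M + 1) = 1 ∧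
    σ (2 * M + 2) = 1

theorem exists_TSD_even (M : ℕ) (hM : M % 2 = 0) (hM0 : M ≠ 0) :
    ∃ c σ, TSD (2 * M + 1) M (2 * pc M + 1) 1 2 c σ := by
  obtain ⟨c, σ, hT, hd⟩ := exists_TS M hM
  have : pc M = pc (M - 2 ^ Nat.log2 M) + 1 := pc_rec hM0
  exact ⟨c, σ, { hT with
    dom := hd
    h1 := by norm_num
    h2 := by norm_num
    h12 := by norm_num
    h1K := by omega
    h2K := by omega
    sp := fun h => by omega }⟩

theorem exists_TSD_odd (M : ℕ) (hM : M % 2 = 0) :
    ∃ c σ, TSD (2 * M + 3) M (2 * pc M + 3) (2 * pc M + 1) (2 * pc M + 2) c σ := by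
  obtain ⟨c, σ, hT, hd⟩ := exists_TS M hM
  have hA := hT.append GP.one (by omega) (by omega)
  refine ⟨_, _, { hA with
    dom := ?_
    h1 := by omega
    h2 := by omega
    h12 := by omega
    h1K := by omega
    h2K := by omega
    sp := ?_ }⟩
  · intro k hk
    rw [if_pos (by omega), if_pos (by omega)]
    exact hd k hk
  · intro _
    refine ⟨?_, ?_, ?_, ?_⟩
    · beta_reduce
      rw [if_neg (by omega), if_pos (by omega)]
    · beta_reduce
      rw [if_neg (by omega), if_neg (by omega)]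
    · beta_reduce
      rw [if_neg (by omega), if_pos (by omega)]
    · beta_reduce
      rw [if_neg (by omega), if_neg (by omega)]

theorem sum_zmod (t : ℕ) [NeZero t] (g : ℕ → ℤ) :
    ∑ s : ZMod t, g s.val = ∑ x ∈ range t, g x := by
  obtain ⟨n, rfl⟩ : ∃ n, t = n + 1 := ⟨t - 1, by have := NeZero.ne t; omega⟩
  exact Fin.sum_univ_eq_sum_range g (n + 1)

theorem TS.periodic {t K : ℕ} {c : ℕ → ℕ} {σ : ℕ → ℤ} [NeZero t] (h : TS t K c σ)
    (δ : ZMod t) (hδ : δ ≠ 0) :
    ∑ s : ZMod t, (if c s.val = c (s + δ).val then σ s.val * σ (s + δ).val else 0) = 0 := by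
  have hr0 : 0 < δ.val := by
    rcases Nat.eq_zero_or_pos δ.val with h0 | h0
    · exact absurd ((ZMod.val_eq_zero δ).mp h0) hδ
    · exact h0
  have hrt : δ.val < t := ZMod.val_lt δ
  set r := δ.val with hr
  have e1 : ∑ s : ZMod t, (if c s.val = c (s + δ).val then σ s.val * σ (s + δ).val else 0)
      = ∑ x ∈ range t, (if c x = c ((x + r) % t) then σ x * σ ((x + r) % t) else 0) := by
    rw [← sum_zmod t (fun x => if c x = c ((x + r) % t) then σ x * σ ((x + r) % t) else 0)]
    refine Finset.sum_congr rfl fun s _ => ?_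
    rw [ZMod.val_add]
  rw [e1]
  have e2 : ∀ x ∈ range t, (if c x = c ((x + r) % t) then σ x * σ ((x + r) % t) else 0)
      = (∑ y ∈ range t, if y = x + r ∧ c x = c y then σ x * σ y else 0)
        + ∑ y ∈ range t, if x = y + (t - r) ∧ c y = c x then σ y * σ x else 0 := by
    intro x hx
    rw [mem_range] at hx
    rw [← Finset.sum_add_distrib]
    have hlt : (x + r) % t < t := Nat.mod_lt _ (by omega)
    rw [Finset.sum_eq_single ((x + r) % t)]
    · by_cases hxr : x + r < t
      · rw [Nat.mod_eq_of_lt hxr]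
        have h3 : ¬ (x = x + r + (t - r)) := by omega
        simp only [h3, false_and, if_false, add_zero, true_and]
      · have h4 : (x + r) % t = x + r - t := by
          rw [Nat.mod_eq_sub_mod (by omega), Nat.mod_eq_of_lt (by omega)]
        rw [h4]
        have h5 : ¬ (x + r - t = x + r) := by omega
        have h6 : x = x + r - t + (t - r) := by omega
        have h8 : (x = x + r - t + (t - r)) = True := by simp [← h6]
        have h9 : (x + r - t = x + r) = False := by simp [h5]
        simp only [h9, false_and, if_false, zero_add]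
        simp only [← h6, true_and]
        by_cases h7 : c x = c (x + r - t)
        · rw [if_pos h7, if_pos h7.symm, mul_comm]
        · rw [if_neg h7, if_neg (fun h => h7 h.symm)]
    · intro y hy hne
      rw [mem_range] at hy
      have h3 : y ≠ x + r := by
        intro h3
        apply hne
        rw [h3, Nat.mod_eq_of_lt (by omega)]
      have h4 : x ≠ y + (t - r) := by
        intro h4
        apply hne
        have : x + r = y + t := by omega
        rw [this, Nat.add_mod_right, Nat.mod_eq_of_lt hy]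
      rw [if_neg (fun h => h3 h.1), if_neg (fun h => h4 h.1), add_zero]
    · intro hn
      exact absurd (mem_range.mpr hlt) hn
  rw [Finset.sum_congr rfl e2, Finset.sum_add_distrib]
  have h3 : (∑ x ∈ range t, ∑ y ∈ range t, if y = x + r ∧ c x = c y then σ x * σ y else 0) = 0 :=
    h.corr r hr0
  have h4 : (∑ x ∈ range t, ∑ y ∈ range t, if y = x + (t - r) ∧ c x = c y then σ x * σ y else 0)
      = 0 := h.corr (t - r) (by omega)
  rw [h3, Finset.sum_comm, h4, add_zero]

end Pool.Agent.HD996
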